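import Mathlib

/-!
# Positive zeros found by following the argument

For `P = ∏ k, (X ^ 2 - 2 cos (a k) X + 1)` and `0 < σ < π` the argument of `exp (-i σ J) P (x exp (i σ))` is followed factor by factor for
`x` from `0` to `∞`. If exactly one of the angles `a k` is smaller than `σ` and the others are larger, it goes from `- σ J` to
`σ (2 n - J) - 2 π`. At the points where it is a multiple of `π` the imaginary part `∑ j, c_j sin (σ (j - J)) x ^ j` vanishes.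
-/

set_option autoImplicit false

namespace Pool.Agent.MP_fe2d2a_anK

open Polynomial Complex

/-- `exp (-i σ) q (x exp (i σ))` for `q = X ^ 2 - 2 cos θ X + 1`. -/
noncomputable def wf (θ σ x : ℝ) : ℂ :=
  (((x ^ 2 + 1) * Real.cos σ - 2 * x * Real.cos θ : ℝ) : ℂ) + (((x ^ 2 - 1) * Real.sin σ : ℝ) : ℂ) * I

/-- The continuous argument of `wf θ σ x`. -/
noncomputable def phf (θ σ x : ℝ) : ℝ := if θ < σ then arg (- wf θ σ x) - Real.pi else arg (wf θ σ x)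

theorem wf_re (θ σ x : ℝ) : (wf θ σ x).re = (x ^ 2 + 1) * Real.cos σ - 2 * x * Real.cos θ := by
  rw [wf, add_re, ofReal_re, re_ofReal_mul, I_re, mul_zero, add_zero]

theorem wf_im (θ σ x : ℝ) : (wf θ σ x).im = (x ^ 2 - 1) * Real.sin σ := by
  rw [wf, add_im, ofReal_im, im_ofReal_mul, I_im, mul_one, zero_add]

theorem quad_alg (x c s t : ℂ) (h2 : c ^ 2 + s ^ 2 = 1) :
    (x * (c + s * I)) ^ 2 - t * (x * (c + s * I)) + 1 =
      (c + s * I) * (((x ^ 2 + 1) * c - x * t) + (x ^ 2 - 1) * s * I) := by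
  linear_combination (-1) * h2 + s ^ 2 * I_sq

theorem quad_eq (θ σ x : ℝ) :
    ((x : ℂ) * exp ((σ : ℂ) * I)) ^ 2 - ((2 * Real.cos θ : ℝ) : ℂ) * ((x : ℂ) * exp ((σ : ℂ) * I)) + 1 =
      exp ((σ : ℂ) * I) * wf θ σ x := by
  have h1 : exp ((σ : ℂ) * I) = Complex.cos σ + Complex.sin σ * I := exp_mul_I _
  have h2 : Complex.cos (σ : ℂ) ^ 2 + Complex.sin (σ : ℂ) ^ 2 = 1 := Complex.cos_sq_add_sin_sq _
  have h3 : wf θ σ x = (((x : ℂ) ^ 2 + 1) * Complex.cos σ - (x : ℂ) * ((2 * Real.cos θ : ℝ) : ℂ)) +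
      ((x : ℂ) ^ 2 - 1) * Complex.sin σ * I := by
    rw [wf]; push_cast; ring
  rw [h1, h3]
  exact quad_alg _ _ _ _ h2

theorem mem_slit_pos {θ σ x : ℝ} (hσ : 0 < σ) (hσθ : σ < θ) (hθ : θ < Real.pi) (hx : 0 ≤ x) : wf θ σ x ∈ slitPlane := by
  rw [mem_slitPlane_iff]
  by_cases h : x = 1
  · left
    rw [wf_re, h]
    have := Real.cos_lt_cos_of_nonneg_of_le_pi hσ.le hθ.le hσθ
    linarith
  · right
    rw [wf_im]
    have hs : 0 < Real.sin σ := Real.sin_pos_of_pos_of_lt_pi hσ (hσθ.trans hθ)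
    have h2 : x ^ 2 - 1 ≠ 0 := by
      intro h3
      have h4 : (x - 1) * (x + 1) = 0 := by linarith
      rcases mul_eq_zero.mp h4 with h5 | h5
      · exact h (by linarith)
      · linarith
    exact mul_ne_zero h2 hs.ne'

theorem mem_slit_neg {θ σ x : ℝ} (hθ : 0 < θ) (hθσ : θ < σ) (hσ : σ < Real.pi) (hx : 0 ≤ x) : - wf θ σ x ∈ slitPlane := by
  rw [mem_slitPlane_iff]
  by_cases h : x = 1
  · left
    rw [neg_re, wf_re, h]
    have := Real.cos_lt_cos_of_nonneg_of_le_pi hθ.le hσ.le hθσ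
    linarith
  · right
    rw [neg_im, wf_im]
    have hs : 0 < Real.sin σ := Real.sin_pos_of_pos_of_lt_pi (hθ.trans hθσ) hσ
    have h2 : x ^ 2 - 1 ≠ 0 := by
      intro h3
      have h4 : (x - 1) * (x + 1) = 0 := by linarith
      rcases mul_eq_zero.mp h4 with h5 | h5
      · exact h (by linarith)
      · linarith
    exact neg_ne_zero.mpr (mul_ne_zero h2 hs.ne')

theorem continuous_wf (θ σ : ℝ) : Continuous (wf θ σ) := by
  unfold wf
  fun_prop

theorem wf_polar {θ σ x : ℝ} : wf θ σ x = (‖wf θ σ x‖ : ℂ) * exp ((phf θ σ x : ℝ) * I) := by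
  by_cases h : θ < σ
  · have h1 := norm_mul_exp_arg_mul_I (- wf θ σ x)
    rw [norm_neg] at h1
    have h2 : exp (((phf θ σ x : ℝ) : ℂ) * I) = - exp ((arg (- wf θ σ x) : ℂ) * I) := by
      rw [phf, if_pos h]
      push_cast
      rw [sub_mul, exp_sub, exp_pi_mul_I]
      ring
    rw [h2]
    linear_combination h1
  · have h1 := norm_mul_exp_arg_mul_I (wf θ σ x)
    rw [phf, if_neg h]
    exact h1.symm

/-- `θ` is an admissible angle. -/
def Adm (σ θ : ℝ) : Prop := 0 < θ ∧ θ < Real.pi ∧ θ ≠ σ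

theorem continuousAt_phf {θ σ x : ℝ} (hσ0 : 0 < σ) (hσ1 : σ < Real.pi) (h : Adm σ θ) (hx : 0 ≤ x) :
    ContinuousAt (phf θ σ) x := by
  by_cases h1 : θ < σ
  · have h2 : phf θ σ = fun y => arg (- wf θ σ y) - Real.pi := by
      funext y; rw [phf, if_pos h1]
    rw [h2]
    have h3 := continuousAt_arg (mem_slit_neg h.1 h1 hσ1 hx)
    have h4 : ContinuousAt (fun y => - wf θ σ y) x := (continuous_wf θ σ).continuousAt.neg
    have h5 : ContinuousAt (fun y => arg (- wf θ σ y)) x := ContinuousAt.comp (g := arg) h3 h4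
    exact h5.sub continuousAt_const
  · have h1' : σ < θ := lt_of_le_of_ne (not_lt.mp h1) (Ne.symm h.2.2)
    have h2 : phf θ σ = fun y => arg (wf θ σ y) := by
      funext y; rw [phf, if_neg h1]
    rw [h2]
    have h3 := continuousAt_arg (mem_slit_pos hσ0 h1' h.2.1 hx)
    exact ContinuousAt.comp (g := arg) h3 (continuous_wf θ σ).continuousAt

theorem phf_zero {θ σ : ℝ} (hσ0 : 0 < σ) (hσ1 : σ < Real.pi) : phf θ σ 0 = - σ := by
  have hpi := Real.pi_pos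
  by_cases h1 : θ < σ
  · rw [phf, if_pos h1]
    have h2 : - wf θ σ 0 = Complex.cos ((Real.pi - σ : ℝ) : ℂ) + Complex.sin ((Real.pi - σ : ℝ) : ℂ) * I := by
      rw [← ofReal_cos, ← ofReal_sin, Real.cos_pi_sub, Real.sin_pi_sub, wf]
      push_cast
      ring
    rw [h2, arg_cos_add_sin_mul_I ⟨by linarith, by linarith⟩]
    ring
  · rw [phf, if_neg h1]
    have h2 : wf θ σ 0 = Complex.cos ((- σ : ℝ) : ℂ) + Complex.sin ((- σ : ℝ) : ℂ) * I := by
      rw [← ofReal_cos, ← ofReal_sin, Real.cos_neg, Real.sin_neg, wf]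
      push_cast
      ring
    rw [h2, arg_cos_add_sin_mul_I ⟨by linarith, by linarith⟩]

theorem wf_inv (θ σ : ℝ) {x : ℝ} (hx : 0 < x) :
    wf θ σ x⁻¹ = (((x⁻¹) ^ 2 : ℝ) : ℂ) * (starRingEnd ℂ) (wf θ σ x) := by
  apply Complex.ext
  · rw [re_ofReal_mul, conj_re, wf_re, wf_re]
    field_simp
    ring
  · rw [im_ofReal_mul, conj_im, wf_im, wf_im]
    field_simp
    ring

theorem arg_conj_slit {z : ℂ} (hz : z ∈ slitPlane) : arg ((starRingEnd ℂ) z) = - arg z := by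
  rw [arg_conj, if_neg (slitPlane_arg_ne_pi hz)]

theorem phf_inv {θ σ x : ℝ} (hσ0 : 0 < σ) (hσ1 : σ < Real.pi) (h : Adm σ θ) (hx : 0 < x) :
    phf θ σ x⁻¹ = - phf θ σ x - (if θ < σ then 2 * Real.pi else 0) := by
  have hr : 0 < (x⁻¹) ^ 2 := by positivity
  by_cases h1 : θ < σ
  · rw [phf, if_pos h1, phf, if_pos h1, if_pos h1, wf_inv θ σ hx]
    have h2 : - ((((x⁻¹) ^ 2 : ℝ) : ℂ) * (starRingEnd ℂ) (wf θ σ x)) =
        (((x⁻¹) ^ 2 : ℝ) : ℂ) * (starRingEnd ℂ) (- wf θ σ x) := by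
      rw [map_neg]; ring
    rw [h2, arg_real_mul _ hr, arg_conj_slit (mem_slit_neg h.1 h1 hσ1 hx.le)]
    ring
  · have h1' : σ < θ := lt_of_le_of_ne (not_lt.mp h1) (Ne.symm h.2.2)
    rw [phf, if_neg h1, phf, if_neg h1, if_neg h1, wf_inv θ σ hx, arg_real_mul _ hr,
      arg_conj_slit (mem_slit_pos hσ0 h1' h.2.1 hx.le)]
    ring

/-- The polynomial `∏ k, (X ^ 2 - 2 cos (a k) X + 1)`. -/
noncomputable def PP {n : ℕ} (a : Fin n → ℝ) : ℝ[X] := ∏ k : Fin n, ((X : ℝ[X]) ^ 2 - C (2 * Real.cos (a k)) * X + 1)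

theorem natDegree_PP {n : ℕ} (a : Fin n → ℝ) : (PP a).natDegree ≤ 2 * n := by
  have h1 : (PP a).natDegree ≤ ∑ k : Fin n, ((X : ℝ[X]) ^ 2 - C (2 * Real.cos (a k)) * X + 1).natDegree :=
    natDegree_prod_le _ _
  have h2 : ∑ k : Fin n, ((X : ℝ[X]) ^ 2 - C (2 * Real.cos (a k)) * X + 1).natDegree ≤ ∑ _k : Fin n, 2 := by
    apply Finset.sum_le_sum
    intro k _
    compute_degree
  have h3 : ∑ _k : Fin n, 2 = 2 * n := by simp [mul_comm]
  omega

/-- The continuous argument of `exp (-i σ J) P (x exp (i σ))`. -/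
noncomputable def Phi {n : ℕ} (a : Fin n → ℝ) (σ J x : ℝ) : ℝ := σ * (n - J) + ∑ k : Fin n, phf (a k) σ x

theorem aeval_PP {n : ℕ} (a : Fin n → ℝ) (σ J x : ℝ) :
    exp (((- (σ * J) : ℝ) : ℂ) * I) * aeval ((x : ℂ) * exp ((σ : ℂ) * I)) (PP a) =
      ((∏ k : Fin n, ‖wf (a k) σ x‖ : ℝ) : ℂ) * exp (((Phi a σ J x : ℝ) : ℂ) * I) := by
  have h1 : aeval ((x : ℂ) * exp ((σ : ℂ) * I)) (PP a) =
      ∏ k : Fin n, (exp ((σ : ℂ) * I) * wf (a k) σ x) := by
    rw [PP, map_prod]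
    apply Finset.prod_congr rfl
    intro k _
    rw [← quad_eq]
    simp only [map_add, map_sub, map_mul, map_pow, aeval_X, aeval_C, map_one, coe_algebraMap, ofReal_mul]
  have h2 : ∏ k : Fin n, (exp ((σ : ℂ) * I) * wf (a k) σ x) =
      exp (((σ * n : ℝ) : ℂ) * I) * ∏ k : Fin n, wf (a k) σ x := by
    rw [Finset.prod_mul_distrib, Finset.prod_const, Finset.card_univ, Fintype.card_fin, ← exp_nat_mul]
    congr 2
    push_cast
    ring
  have h3 : ∏ k : Fin n, wf (a k) σ x =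
      ((∏ k : Fin n, ‖wf (a k) σ x‖ : ℝ) : ℂ) * exp (((∑ k : Fin n, phf (a k) σ x : ℝ) : ℂ) * I) := by
    have h4 : ∏ k : Fin n, wf (a k) σ x = ∏ k : Fin n, ((‖wf (a k) σ x‖ : ℂ) * exp (((phf (a k) σ x : ℝ) : ℂ) * I)) := by
      apply Finset.prod_congr rfl
      intro k _
      exact wf_polar
    rw [h4, Finset.prod_mul_distrib, ← exp_sum]
    push_cast
    rw [Finset.sum_mul]
  rw [h1, h2, h3]
  have h5 : exp (((Phi a σ J x : ℝ) : ℂ) * I) = exp (((- (σ * J) : ℝ) : ℂ) * I) * exp (((σ * n : ℝ) : ℂ) * I) *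
      exp (((∑ k : Fin n, phf (a k) σ x : ℝ) : ℂ) * I) := by
    rw [← exp_add, ← exp_add]
    congr 1
    rw [Phi]
    push_cast
    ring
  rw [h5]
  ring

theorem im_term (c x σ J : ℝ) (j : ℕ) :
    (exp (((- (σ * J) : ℝ) : ℂ) * I) * (c • ((x : ℂ) * exp ((σ : ℂ) * I)) ^ j)).im =
      c * Real.sin (σ * (j - J)) * x ^ j := by
  have h1 : exp (((- (σ * J) : ℝ) : ℂ) * I) * (c • ((x : ℂ) * exp ((σ : ℂ) * I)) ^ j) =
      ((c * x ^ j : ℝ) : ℂ) * exp (((σ * (j - J) : ℝ) : ℂ) * I) := by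
    rw [mul_pow, ← exp_nat_mul, real_smul]
    have h2 : exp (((σ * (j - J) : ℝ) : ℂ) * I) = exp (((- (σ * J) : ℝ) : ℂ) * I) * exp ((j : ℂ) * ((σ : ℂ) * I)) := by
      rw [← exp_add]
      congr 1
      push_cast
      ring
    rw [h2]
    push_cast
    ring
  rw [h1, im_ofReal_mul, exp_ofReal_mul_I_im]
  ring

theorem sum_eq {n : ℕ} (a : Fin n → ℝ) (σ J x : ℝ) :
    ∑ j ∈ Finset.range (2 * n + 1), (PP a).coeff j * Real.sin (σ * (j - J)) * x ^ j =
      (∏ k : Fin n, ‖wf (a k) σ x‖) * Real.sin (Phi a σ J x) := by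
  have h1 := aeval_PP a σ J x
  have h2 : aeval ((x : ℂ) * exp ((σ : ℂ) * I)) (PP a) =
      ∑ j ∈ Finset.range (2 * n + 1), (PP a).coeff j • ((x : ℂ) * exp ((σ : ℂ) * I)) ^ j :=
    aeval_eq_sum_range' (Nat.lt_succ_of_le (natDegree_PP a)) _
  rw [h2, Finset.mul_sum] at h1
  have h3 := congrArg Complex.im h1
  rw [im_sum, im_ofReal_mul, exp_ofReal_mul_I_im] at h3
  rw [← h3]
  apply Finset.sum_congr rfl
  intro j _
  exact (im_term _ _ _ _ _).symm

theorem continuousAt_Phi {n : ℕ} {a : Fin n → ℝ} {σ : ℝ} (J : ℝ) {x : ℝ} (hσ0 : 0 < σ) (hσ1 : σ < Real.pi)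
    (h : ∀ k, Adm σ (a k)) (hx : 0 ≤ x) : ContinuousAt (Phi a σ J) x := by
  unfold Phi
  apply ContinuousAt.add continuousAt_const
  apply tendsto_finsetSum
  intro k _
  exact continuousAt_phf hσ0 hσ1 (h k) hx

theorem Phi_zero {n : ℕ} (a : Fin n → ℝ) {σ : ℝ} (J : ℝ) (hσ0 : 0 < σ) (hσ1 : σ < Real.pi) : Phi a σ J 0 = - (σ * J) := by
  have h1 : ∑ k : Fin n, phf (a k) σ 0 = ∑ _k : Fin n, (- σ) := Finset.sum_congr rfl fun k _ => phf_zero hσ0 hσ1
  rw [Phi, h1, Finset.sum_const, Finset.card_univ, Fintype.card_fin, nsmul_eq_mul]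
  ring

theorem Phi_inv {n : ℕ} {a : Fin n → ℝ} {σ : ℝ} (J : ℝ) {x : ℝ} (hσ0 : 0 < σ) (hσ1 : σ < Real.pi)
    (h : ∀ k, Adm σ (a k)) (hx : 0 < x) :
    Phi a σ J x⁻¹ = 2 * σ * (n - J) - 2 * Real.pi * ((Finset.univ.filter fun k => a k < σ).card : ℝ) - Phi a σ J x := by
  have h1 : ∑ k : Fin n, phf (a k) σ x⁻¹ =
      - ∑ k : Fin n, phf (a k) σ x - 2 * Real.pi * ((Finset.univ.filter fun k => a k < σ).card : ℝ) := by
    have h2 : ∑ k : Fin n, phf (a k) σ x⁻¹ = ∑ k : Fin n, (- phf (a k) σ x - (if a k < σ then 2 * Real.pi else 0)) :=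
      Finset.sum_congr rfl fun k _ => phf_inv hσ0 hσ1 (h k) hx
    rw [h2, Finset.sum_sub_distrib, Finset.sum_neg_distrib, ← Finset.sum_filter, Finset.sum_const, nsmul_eq_mul]
    ring
  rw [Phi, h1, Phi]
  ring

/-- **Following the argument.** If exactly `K` of the angles are smaller than `σ` and the others are larger, then
`∑ j, c_j sin (σ (j - J)) x ^ j` vanishes at some `x > 0` with `Phi x = m π` for every integer `m` with
`- σ J < m π < σ (2 n - J) - 2 π K`. -/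
theorem exists_zero_gen {n : ℕ} {a : Fin n → ℝ} {σ : ℝ} (J : ℝ) (hσ0 : 0 < σ) (hσ1 : σ < Real.pi)
    (h : ∀ k, Adm σ (a k)) (K : ℕ) (hK : (Finset.univ.filter fun k => a k < σ).card = K) (m : ℤ)
    (hm1 : - (σ * J) < m * Real.pi) (hm2 : (m : ℝ) * Real.pi < σ * (2 * n - J) - 2 * Real.pi * K) :
    ∃ x : ℝ, 0 < x ∧ Phi a σ J x = m * Real.pi ∧
      ∑ j ∈ Finset.range (2 * n + 1), (PP a).coeff j * Real.sin (σ * (j - J)) * x ^ j = 0 := by
  -- a small point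
  have hc := continuousAt_Phi (a := a) J hσ0 hσ1 h (le_refl (0 : ℝ))
  have h0 := Phi_zero a J hσ0 hσ1
  have hlt : Phi a σ J 0 < min (m * Real.pi) (2 * σ * (n - J) - 2 * Real.pi * K - m * Real.pi) := by
    rw [h0]
    apply lt_min hm1
    linarith
  have hev : ∀ᶠ y in nhds (0 : ℝ), Phi a σ J y < min (m * Real.pi) (2 * σ * (n - J) - 2 * Real.pi * K - m * Real.pi) :=
    hc.eventually_lt continuousAt_const hlt
  obtain ⟨ε, hε, hball⟩ := Metric.eventually_nhds_iff.mp hev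
  set x₁ : ℝ := min (ε / 2) 1 with hx₁
  have hx₁0 : 0 < x₁ := lt_min (by linarith) one_pos
  have hx₁1 : x₁ ≤ 1 := min_le_right _ _
  have hx₁2 : Phi a σ J x₁ < min (m * Real.pi) (2 * σ * (n - J) - 2 * Real.pi * K - m * Real.pi) := by
    apply hball
    rw [Real.dist_eq, sub_zero, abs_of_pos hx₁0]
    have : x₁ ≤ ε / 2 := min_le_left _ _
    linarith
  have hlow : Phi a σ J x₁ ≤ m * Real.pi := (lt_of_lt_of_le hx₁2 (min_le_left _ _)).le
  have hhigh : (m : ℝ) * Real.pi ≤ Phi a σ J x₁⁻¹ := by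
    rw [Phi_inv J hσ0 hσ1 h hx₁0, hK]
    have := lt_of_lt_of_le hx₁2 (min_le_right _ _)
    linarith
  have hle : x₁ ≤ x₁⁻¹ := by
    have : (1 : ℝ) ≤ x₁⁻¹ := (one_le_inv₀ hx₁0).mpr hx₁1
    linarith
  have hcont : ContinuousOn (Phi a σ J) (Set.Icc x₁ x₁⁻¹) := by
    intro y hy
    exact (continuousAt_Phi J hσ0 hσ1 h (by linarith [hy.1])).continuousWithinAt
  obtain ⟨x, hx, hxm⟩ := intermediate_value_Icc hle hcont ⟨hlow, hhigh⟩
  refine ⟨x, by linarith [hx.1], hxm, ?_⟩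
  rw [sum_eq, hxm, Real.sin_int_mul_pi, mul_zero]

/-- The case of exactly one angle smaller than `σ`. -/
theorem arg_zeros {n : ℕ} (a : Fin n → ℝ) (k0 : Fin n) (σ : ℝ) (ha : ∀ k, 0 < a k ∧ a k < Real.pi) (h0 : a k0 < σ)
    (hσ : σ < Real.pi) (h1 : ∀ k, k ≠ k0 → σ < a k) (J : ℝ) :
    ∃ Φ : ℝ → ℝ, ∀ m : ℤ, - (σ * J) < m * Real.pi → (m : ℝ) * Real.pi < σ * (2 * n - J) - 2 * Real.pi →
      ∃ x > 0, Φ x = m * Real.pi ∧
        ∑ j ∈ Finset.range (2 * n + 1),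
          ((∏ k : Fin n, ((X : ℝ[X]) ^ 2 - C (2 * Real.cos (a k)) * X + 1)).coeff j * Real.sin (σ * (j - J))) * x ^ j = 0 := by
  refine ⟨Phi a σ J, fun m hm1 hm2 => ?_⟩
  have hσ0 : 0 < σ := (ha k0).1.trans h0
  have hadm : ∀ k, Adm σ (a k) := by
    intro k
    by_cases hk : k = k0
    · rw [hk]; exact ⟨(ha k0).1, (ha k0).2, h0.ne⟩
    · exact ⟨(ha k).1, (ha k).2, (h1 k hk).ne'⟩
  have hK : (Finset.univ.filter fun k => a k < σ).card = 1 := by
    rw [Finset.card_eq_one]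
    refine ⟨k0, ?_⟩
    ext k
    simp only [Finset.mem_filter, Finset.mem_univ, true_and, Finset.mem_singleton]
    constructor
    · intro hk
      by_contra hne
      exact absurd hk (not_lt.mpr (h1 k hne).le)
    · intro hk
      rw [hk]; exact h0
  exact exists_zero_gen J hσ0 hσ hadm 1 hK m hm1 (by push_cast; linarith)

end Pool.Agent.MP_fe2d2a_anK
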