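import Mathlib
import Pool.Agent.Lib.MP_fe2d2a_anK.Arg

/-!
The zeros found by following the argument, with an additional factor `(1 + η X)^K`.
-/

set_option autoImplicit false

namespace Pool.Agent.MP_fe2d2a_anK

open Polynomial Complex

/-- `1 + η x e^{iσ}` -/
noncomputable def uf (σ η x : ℝ) : ℂ := 1 + ((η * x : ℝ) : ℂ) * exp ((σ : ℂ) * I)

theorem uf_im (σ η x : ℝ) : (uf σ η x).im = η * x * Real.sin σ := by
  unfold uf
  rw [add_im, one_im, im_ofReal_mul, exp_ofReal_mul_I_im]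
  ring

theorem uf_slit {σ η x : ℝ} (hσ0 : 0 < σ) (hσ1 : σ < Real.pi) (hη : 0 < η) (hx : 0 ≤ x) :
    uf σ η x ∈ slitPlane := by
  rw [mem_slitPlane_iff]
  rcases hx.eq_or_lt with h | h
  · left
    rw [← h]
    simp [uf]
  · right
    rw [uf_im]
    have := Real.sin_pos_of_pos_of_lt_pi hσ0 hσ1
    positivity

theorem continuous_uf (σ η : ℝ) : Continuous (uf σ η) := by
  unfold uf; fun_prop

/-- `x + η e^{iσ}` -/
noncomputable def uf' (σ η x : ℝ) : ℂ := (x : ℂ) + (η : ℂ) * exp ((σ : ℂ) * I)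

theorem uf'_slit {σ η x : ℝ} (hσ0 : 0 < σ) (hσ1 : σ < Real.pi) (hη : 0 < η) :
    uf' σ η x ∈ slitPlane := by
  rw [mem_slitPlane_iff]
  right
  unfold uf'
  rw [add_im, ofReal_im, im_ofReal_mul, exp_ofReal_mul_I_im, zero_add]
  have := Real.sin_pos_of_pos_of_lt_pi hσ0 hσ1
  positivity

theorem continuous_uf' (σ η : ℝ) : Continuous (uf' σ η) := by
  unfold uf'; fun_prop

theorem arg_uf_inv {σ η x : ℝ} (hx : 0 < x) : arg (uf σ η x⁻¹) = arg (uf' σ η x) := by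
  have : uf σ η x⁻¹ = ((x⁻¹ : ℝ) : ℂ) * uf' σ η x := by
    unfold uf uf'
    have h : (x : ℂ) ≠ 0 := by exact_mod_cast hx.ne'
    push_cast
    field_simp
  rw [this, arg_real_mul _ (inv_pos.2 hx)]

theorem arg_uf'_zero {σ η : ℝ} (hσ0 : 0 < σ) (hσ1 : σ < Real.pi) (hη : 0 < η) :
    arg (uf' σ η 0) = σ := by
  unfold uf'
  rw [ofReal_zero, zero_add, arg_real_mul _ hη, exp_mul_I, arg_cos_add_sin_mul_I]
  exact ⟨by linarith [Real.pi_pos], hσ1.le⟩

theorem arg_uf_zero {σ η : ℝ} : arg (uf σ η 0) = 0 := by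
  simp [uf]

noncomputable def Phi2 {n : ℕ} (a : Fin n → ℝ) (σ J η : ℝ) (K : ℕ) (x : ℝ) : ℝ :=
  Phi a σ J x + K * arg (uf σ η x)

theorem sum_eq2 {n : ℕ} (a : Fin n → ℝ) (σ J η : ℝ) (K : ℕ) (x : ℝ) :
    ∑ j ∈ Finset.range (2 * n + K + 1),
      (PP a * (1 + C η * X) ^ K).coeff j * Real.sin (σ * (j - J)) * x ^ j =
      (∏ k : Fin n, ‖wf (a k) σ x‖) * ‖uf σ η x‖ ^ K * Real.sin (Phi2 a σ J η K x) := by
  have h1 := aeval_PP a σ J x
  have hu : aeval ((x : ℂ) * exp ((σ : ℂ) * I)) ((1 + C η * X : ℝ[X]) ^ K) =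
      ((‖uf σ η x‖ ^ K : ℝ) : ℂ) * exp (((K * arg (uf σ η x) : ℝ) : ℂ) * I) := by
    have h3 : aeval ((x : ℂ) * exp ((σ : ℂ) * I)) ((1 + C η * X : ℝ[X]) ^ K) = (uf σ η x) ^ K := by
      rw [map_pow]
      congr 1
      unfold uf
      simp only [map_add, map_mul, aeval_X, aeval_C, map_one, coe_algebraMap]
      push_cast
      ring
    rw [h3]
    conv_lhs => rw [← norm_mul_exp_arg_mul_I (uf σ η x)]
    rw [mul_pow, ← exp_nat_mul]
    push_cast
    congr 2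
    ring
  have h4 : exp (((- (σ * J) : ℝ) : ℂ) * I) * aeval ((x : ℂ) * exp ((σ : ℂ) * I))
      (PP a * (1 + C η * X) ^ K) =
      (((∏ k : Fin n, ‖wf (a k) σ x‖) * ‖uf σ η x‖ ^ K : ℝ) : ℂ) *
        exp (((Phi2 a σ J η K x : ℝ) : ℂ) * I) := by
    rw [map_mul, ← mul_assoc, h1, hu]
    have h5 : exp (((Phi2 a σ J η K x : ℝ) : ℂ) * I) = exp (((Phi a σ J x : ℝ) : ℂ) * I) *
        exp (((K * arg (uf σ η x) : ℝ) : ℂ) * I) := by
      rw [← exp_add]
      congr 1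
      unfold Phi2
      push_cast
      ring
    rw [h5]
    push_cast
    ring
  have hdeg : (PP a * (1 + C η * X) ^ K).natDegree < 2 * n + K + 1 := by
    have hd1 := natDegree_PP a
    have hd2 : ((1 + C η * X : ℝ[X]) ^ K).natDegree ≤ K := by
      refine natDegree_pow_le.trans ?_
      have : (1 + C η * X : ℝ[X]).natDegree ≤ 1 := by compute_degree
      calc K * _ ≤ K * 1 := Nat.mul_le_mul_left K this
        _ = K := mul_one K
    have hd3 := natDegree_mul_le (p := PP a) (q := (1 + C η * X : ℝ[X]) ^ K)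
    omega
  rw [aeval_eq_sum_range' hdeg, Finset.mul_sum] at h4
  have h6 := congrArg Complex.im h4
  rw [im_sum, im_ofReal_mul, exp_ofReal_mul_I_im] at h6
  rw [← h6]
  apply Finset.sum_congr rfl
  intro j _
  exact (im_term _ _ _ _ _).symm

theorem arg_zeros2 {n : ℕ} (a : Fin n → ℝ) (k0 : Fin n) (σ η : ℝ) (K : ℕ)
    (ha : ∀ k, 0 < a k ∧ a k < Real.pi) (h0 : a k0 < σ) (hσ : σ < Real.pi)
    (h1 : ∀ k, k ≠ k0 → σ < a k) (hη : 0 < η) (J : ℝ) :
    ∃ Φ : ℝ → ℝ, ∀ m : ℤ, -(σ * J) < m * Real.pi →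
      (m : ℝ) * Real.pi < σ * (2 * n + K - J) - 2 * Real.pi →
      ∃ x > 0, Φ x = m * Real.pi ∧ ∑ j ∈ Finset.range (2 * n + K + 1),
        ((PP a * (1 + C η * X) ^ K).coeff j * Real.sin (σ * (j - J))) * x ^ j = 0 := by
  refine ⟨Phi2 a σ J η K, fun m hm1 hm2 => ?_⟩
  have hσ0 : 0 < σ := (ha k0).1.trans h0
  have h : ∀ k, Adm σ (a k) := by
    intro k
    by_cases hk : k = k0
    · rw [hk]; exact ⟨(ha k0).1, (ha k0).2, h0.ne⟩
    · exact ⟨(ha k).1, (ha k).2, (h1 k hk).ne'⟩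
  have hK : (Finset.univ.filter fun k => a k < σ).card = 1 := by
    rw [Finset.card_eq_one]
    refine ⟨k0, ?_⟩
    ext k
    simp only [Finset.mem_filter, Finset.mem_univ, true_and, Finset.mem_singleton]
    constructor
    · intro hk
      by_contra hne
      exact absurd hk (not_lt.mpr (h1 k hne).le)
    · intro hk
      rw [hk]; exact h0
  have hcont2 : ∀ x : ℝ, 0 ≤ x → ContinuousAt (Phi2 a σ J η K) x := by
    intro x hx
    unfold Phi2
    have h3 := continuousAt_arg (uf_slit hσ0 hσ hη hx)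
    have h4 : ContinuousAt (fun y => arg (uf σ η y)) x :=
      ContinuousAt.comp (g := arg) h3 (continuous_uf σ η).continuousAt
    exact (continuousAt_Phi J hσ0 hσ h hx).add (continuousAt_const.mul h4)
  set H : ℝ → ℝ := fun x => 2 * σ * (n - J) - 2 * Real.pi - Phi a σ J x + K * arg (uf' σ η x)
    with hH
  have hHc : ContinuousAt H 0 := by
    have h3 := continuousAt_arg (uf'_slit (x := 0) hσ0 hσ hη)
    have h4 : ContinuousAt (fun y => arg (uf' σ η y)) 0 :=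
      ContinuousAt.comp (g := arg) h3 (continuous_uf' σ η).continuousAt
    exact (continuousAt_const.sub (continuousAt_Phi J hσ0 hσ h le_rfl)).add
      (continuousAt_const.mul h4)
  have hH0 : (m : ℝ) * Real.pi < H 0 := by
    simp only [hH]
    rw [Phi_zero a J hσ0 hσ, arg_uf'_zero hσ0 hσ hη]
    linarith
  have hP0 : Phi2 a σ J η K 0 < m * Real.pi := by
    unfold Phi2
    rw [Phi_zero a J hσ0 hσ, arg_uf_zero, mul_zero, add_zero]
    exact hm1
  have hev : ∀ᶠ y in nhds (0 : ℝ), Phi2 a σ J η K y < m * Real.pi ∧ (m : ℝ) * Real.pi < H y :=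
    ((hcont2 0 le_rfl).eventually_lt continuousAt_const hP0).and
      (continuousAt_const.eventually_lt hHc hH0)
  obtain ⟨ε, hε, hball⟩ := Metric.eventually_nhds_iff.mp hev
  set x₁ : ℝ := min (ε / 2) 1 with hx₁
  have hx₁0 : 0 < x₁ := lt_min (by linarith) one_pos
  have hx₁1 : x₁ ≤ 1 := min_le_right _ _
  obtain ⟨hl, hh⟩ := hball (y := x₁) (by
    rw [Real.dist_eq, sub_zero, abs_of_pos hx₁0]
    have : x₁ ≤ ε / 2 := min_le_left _ _
    linarith)
  have hhigh : (m : ℝ) * Real.pi ≤ Phi2 a σ J η K x₁⁻¹ := by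
    unfold Phi2
    rw [Phi_inv J hσ0 hσ h hx₁0, hK, arg_uf_inv hx₁0]
    simp only [hH] at hh
    push_cast
    linarith
  have hle : x₁ ≤ x₁⁻¹ := by
    have : (1 : ℝ) ≤ x₁⁻¹ := (one_le_inv₀ hx₁0).mpr hx₁1
    linarith
  have hcont : ContinuousOn (Phi2 a σ J η K) (Set.Icc x₁ x₁⁻¹) := by
    intro y hy
    exact (hcont2 y (by linarith [hy.1])).continuousWithinAt
  obtain ⟨x, hx, hxm⟩ := intermediate_value_Icc hle hcont ⟨hl.le, hhigh⟩
  refine ⟨x, by linarith [hx.1], hxm, ?_⟩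
  rw [sum_eq2, hxm, Real.sin_int_mul_pi, mul_zero]

end Pool.Agent.MP_fe2d2a_anK
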