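import Mathlib

/-!
A form of Descartes' rule of signs for exponential sums, with explicit sign blocks.
-/

set_option autoImplicit false

namespace Pool.Agent.MP_fe2d2a_anK

/-- `SB r n q e`: the numbers `r 0, ..., r (n-1)` can be cut into `q + 1` consecutive (possibly
empty) blocks of alternating sign, the last block having the sign `e`. -/
inductive SB (r : ℕ → ℝ) : ℕ → ℕ → ℝ → Prop
  | nil {e : ℝ} : SB r 0 0 e
  | same {n q : ℕ} {e : ℝ} : SB r n q e → 0 ≤ e * r n → SB r (n + 1) q e
  | flip {n q : ℕ} {e : ℝ} : SB r n q e → SB r n (q + 1) (-e)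

theorem SB.zero_sign {r : ℕ → ℝ} {n q : ℕ} {e : ℝ} (h : SB r n q e) (hq : q = 0) :
    ∀ j < n, 0 ≤ e * r j := by
  induction h with
  | nil => intro j hj; omega
  | @same n q e _ h2 ih =>
    intro j hj
    rcases Nat.lt_succ_iff_lt_or_eq.1 hj with h | h
    · exact ih hq j h
    · rw [h]; exact h2
  | flip _ _ => omega

/-- peel off the last block -/
theorem SB.last {r : ℕ → ℝ} {n q : ℕ} {e : ℝ} (h : SB r n (q + 1) e) :
    ∃ m ≤ n, SB r m q (-e) ∧ ∀ j, m ≤ j → j < n → 0 ≤ e * r j := by
  generalize hq : q + 1 = Q at h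
  induction h with
  | nil => omega
  | @same n q' e _ h2 ih =>
    obtain ⟨m, hm, h3, h4⟩ := ih hq
    refine ⟨m, by omega, h3, fun j hj hj2 => ?_⟩
    rcases Nat.lt_succ_iff_lt_or_eq.1 hj2 with h | h
    · exact h4 j hj h
    · rw [h]; exact h2
  | @flip n q' e h1 _ =>
    refine ⟨n, le_rfl, ?_, fun j hj hj2 => by omega⟩
    have : q = q' := by omega
    rw [this, neg_neg]
    exact h1

/-- change of the sequence by a sequence of multipliers of constant sign -/
theorem SB.mul_sign {r r' : ℕ → ℝ} {n q : ℕ} {e : ℝ} (h : SB r n q e) (s : ℝ)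
    (hs : ∀ j < n, ∀ e : ℝ, 0 ≤ e * r j → 0 ≤ (s * e) * r' j) : SB r' n q (s * e) := by
  induction h with
  | nil => exact SB.nil
  | @same n q e _ h2 ih =>
    exact SB.same (ih fun j hj => hs j (by omega)) (hs n (by omega) e h2)
  | @flip n q e _ ih =>
    have := SB.flip (ih hs)
    rwa [← mul_neg] at this

theorem SB.append {r : ℕ → ℝ} {m q : ℕ} {e : ℝ} (h : SB r m q e) {n : ℕ} (hmn : m ≤ n)
    (hs : ∀ j, m ≤ j → j < n → 0 ≤ e * r j) : SB r n q e := by
  induction n, hmn using Nat.le_induction with
  | base => exact h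
  | succ n hn ih =>
    exact SB.same (ih fun j hj hj2 => hs j hj (by omega)) (hs n hn (by omega))

/-- Rolle, in the form: a function with `q + 2` distinct zeros whose derivative is `g` gives
`q + 1` distinct zeros of `g`. -/
theorem rolle_finset {f g : ℝ → ℝ} (hf : ∀ y, HasDerivAt f (g y) y) (q : ℕ) (Z : Finset ℝ)
    (hZ : Z.card = q + 1) (h0 : ∀ y ∈ Z, f y = 0) :
    ∃ Z' : Finset ℝ, Z'.card = q ∧ ∀ y ∈ Z', g y = 0 := by
  classical
  set z := Z.orderEmbOfFin hZ with hz
  have hz0 : ∀ i, f (z i) = 0 := fun i => h0 _ (Z.orderEmbOfFin_mem hZ i)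
  have hstep : ∀ i : Fin q, ∃ c, z i.castSucc < c ∧ c < z i.succ ∧ g c = 0 := by
    intro i
    have hlt : z i.castSucc < z i.succ := z.strictMono (Fin.castSucc_lt_succ)
    obtain ⟨c, hc, hc2⟩ := exists_hasDerivAt_eq_zero (f := f) (f' := g) hlt
      (fun y _ => (hf y).continuousAt.continuousWithinAt) (by rw [hz0, hz0]) (fun y _ => hf y)
    exact ⟨c, hc.1, hc.2, hc2⟩
  choose c hc1 hc2 hc3 using hstep
  have hmono : StrictMono c := by
    intro i j hij
    have : z i.succ ≤ z j.castSucc := z.monotone (by
      rw [Fin.le_def]; simp only [Fin.val_succ, Fin.val_castSucc]; exact hij)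
    exact (hc2 i).trans_le (this.trans (hc1 j).le)
  refine ⟨Finset.univ.image c, ?_, ?_⟩
  · rw [Finset.card_image_of_injective _ hmono.injective, Finset.card_univ, Fintype.card_fin]
  · intro y hy
    obtain ⟨i, _, rfl⟩ := Finset.mem_image.1 hy
    exact hc3 i

/-- Descartes' rule of signs: a nonzero exponential sum with at most `q` sign changes has at most
`q` distinct real zeros. -/
theorem descartes (q : ℕ) : ∀ (r : ℕ → ℝ) (n : ℕ) (e : ℝ), e ≠ 0 → SB r n q e →
    ∀ Z : Finset ℝ, Z.card = q + 1 →
    (∀ y ∈ Z, ∑ j ∈ Finset.range n, r j * Real.exp (j * y) = 0) → ∀ j < n, r j = 0 := by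
  induction q with
  | zero =>
    intro r n e he h Z hZ h0 j hj
    have hs := h.zero_sign rfl
    obtain ⟨y, hy⟩ : Z.Nonempty := by rw [← Finset.card_pos, hZ]; norm_num
    have h1 : ∑ j ∈ Finset.range n, (e * r j) * Real.exp (j * y) = 0 := by
      have := congrArg (fun t => e * t) (h0 y hy)
      simp only [mul_zero, Finset.mul_sum] at this
      rw [← this]
      exact Finset.sum_congr rfl fun j _ => by ring
    rw [Finset.sum_eq_zero_iff_of_nonneg] at h1
    · have := h1 j (Finset.mem_range.2 hj)
      rcases mul_eq_zero.1 this with h | h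
      · rcases mul_eq_zero.1 h with h | h
        · exact absurd h he
        · exact h
      · exact absurd h (Real.exp_pos _).ne'
    · intro j hj
      exact mul_nonneg (hs j (Finset.mem_range.1 hj)) (Real.exp_pos _).le
  | succ q ih =>
    intro r n e he h Z hZ h0
    obtain ⟨m, hm, h1, h2⟩ := h.last
    -- multipliers
    set k : ℕ → ℝ := fun j => (j : ℝ) - m + 1 / 2 with hk
    have hk1 : ∀ j, m ≤ j → 0 < k j := by
      intro j hj
      have : (m : ℝ) ≤ j := by exact_mod_cast hj
      simp only [hk]; linarith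
    have hk2 : ∀ j, j < m → k j < 0 := by
      intro j hj
      have : (j : ℝ) + 1 ≤ m := by exact_mod_cast hj
      simp only [hk]; linarith
    set r' : ℕ → ℝ := fun j => k j * r j with hr'
    have hSB : SB r' n q e := by
      have h3 : SB r' m q (-1 * -e) := by
        refine h1.mul_sign (-1) fun j hj e' he' => ?_
        have : (-1 * e') * r' j = (-(k j)) * (e' * r j) := by simp only [hr']; ring
        rw [this]
        exact mul_nonneg (by linarith [hk2 j hj]) he'
      rw [show (-1 : ℝ) * -e = e by ring] at h3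
      refine h3.append hm fun j hj hj2 => ?_
      have : e * r' j = k j * (e * r j) := by simp only [hr']; ring
      rw [this]
      exact mul_nonneg (hk1 j hj).le (h2 j hj hj2)
    have hF : ∀ y : ℝ, HasDerivAt
        (fun y => ∑ j ∈ Finset.range n, r j * Real.exp (k j * y))
        (∑ j ∈ Finset.range n, r' j * Real.exp (k j * y)) y := by
      intro y
      have := HasDerivAt.fun_sum (u := Finset.range n)
        (A := fun j (y : ℝ) => r j * Real.exp (k j * y))
        (A' := fun j => r' j * Real.exp (k j * y)) (x := y) (fun j _ => by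
          have h3 : HasDerivAt (fun y : ℝ => k j * y) (k j) y := by
            simpa using (hasDerivAt_id y).const_mul (k j)
          have h4 := (h3.exp).const_mul (r j)
          have h5 : r j * (Real.exp (k j * y) * k j) = r' j * Real.exp (k j * y) := by
            change _ = k j * r j * Real.exp (k j * y)
            ring
          rw [h5] at h4
          exact h4)
      exact this
    have hfac : ∀ (u : ℕ → ℝ) (y : ℝ), ∑ j ∈ Finset.range n, u j * Real.exp (k j * y) =
        Real.exp ((1 / 2 - m) * y) * ∑ j ∈ Finset.range n, u j * Real.exp (j * y) := by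
      intro u y
      rw [Finset.mul_sum]
      refine Finset.sum_congr rfl fun j _ => ?_
      have : Real.exp (k j * y) = Real.exp ((1 / 2 - m) * y) * Real.exp (j * y) := by
        rw [← Real.exp_add]; congr 1
        change ((j : ℝ) - m + 1 / 2) * y = _
        ring
      rw [this]; ring
    obtain ⟨Z', hZ', h0'⟩ := rolle_finset hF (q + 1) Z hZ (fun y hy => by
      rw [hfac, h0 y hy, mul_zero])
    have h5 := ih r' n e he hSB Z' hZ' (fun y hy => by
      have := h0' y hy
      rw [hfac] at this
      exact (mul_eq_zero.1 this).resolve_left (Real.exp_pos _).ne')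
    intro j hj
    have h6 := h5 j hj
    simp only [hr'] at h6
    rcases mul_eq_zero.1 h6 with h | h
    · rcases lt_or_ge j m with h7 | h7
      · exact absurd h (hk2 j h7).ne
      · exact absurd h (hk1 j h7).ne'
    · exact h

end Pool.Agent.MP_fe2d2a_anK
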