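import Mathlib
import Pool.Agent.Lib.MP_fe2d2a_anK.DS

/-!
The oscillator driven by point masses: `vv d s N x = ∑_{j ≤ N, j < x} s j * sin (d (x - j))`.
-/

set_option autoImplicit false

namespace Pool.Agent.MP_fe2d2a_anK

open Real

/-- `sin (d (x - j)_+)` -/
noncomputable def fj (d : ℝ) (j : ℕ) (x : ℝ) : ℝ := Real.sin (d * max (x - j) 0)

/-- the displacement -/
noncomputable def vv (d : ℝ) (s : ℕ → ℝ) (N : ℕ) (x : ℝ) : ℝ :=
  ∑ j ∈ Finset.range (N + 1), s j * fj d j x

/-- the velocity divided by `d` at an integer point from the left -/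
noncomputable def ww (d : ℝ) (s : ℕ → ℝ) (J : ℕ) : ℝ :=
  ∑ j ∈ Finset.range J, s j * Real.cos (d * (J - j))

theorem fj_of_le {d : ℝ} {j : ℕ} {x : ℝ} (h : (j : ℝ) ≤ x) : fj d j x = Real.sin (d * (x - j)) := by
  unfold fj; rw [max_eq_left (by linarith)]

theorem fj_of_ge {d : ℝ} {j : ℕ} {x : ℝ} (h : x ≤ (j : ℝ)) : fj d j x = 0 := by
  unfold fj; rw [max_eq_right (by linarith), mul_zero, Real.sin_zero]

theorem continuous_fj (d : ℝ) (j : ℕ) : Continuous (fj d j) := by
  unfold fj; fun_prop

theorem continuous_vv (d : ℝ) (s : ℕ → ℝ) (N : ℕ) : Continuous (vv d s N) := by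
  unfold vv
  exact continuous_finsetSum _ fun j _ => (continuous_fj d j).const_mul (s j) |>.congr
    (fun x => rfl)

/-- the Green function inequality for one mass -/
theorem green {d : ℝ} (hd : 0 ≤ d) {j : ℕ} {x y z : ℝ} (hxy : x ≤ y) (hyz : y ≤ z)
    (hdz : d * (z - x) ≤ π) :
    fj d j y * Real.sin (d * (z - x)) - fj d j x * Real.sin (d * (z - y)) -
      fj d j z * Real.sin (d * (y - x)) ≤ 0 ∧
    ((j : ℝ) ≤ x ∨ z ≤ j →
    fj d j y * Real.sin (d * (z - x)) - fj d j x * Real.sin (d * (z - y)) -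
      fj d j z * Real.sin (d * (y - x)) = 0) := by
  rcases le_or_gt (j : ℝ) x with h | h
  · -- everything to the right of j
    have e : fj d j y * Real.sin (d * (z - x)) - fj d j x * Real.sin (d * (z - y)) -
      fj d j z * Real.sin (d * (y - x)) = 0 := by
      rw [fj_of_le h, fj_of_le (h.trans hxy), fj_of_le (h.trans (hxy.trans hyz))]
      set A := d * (x - j) with hA
      set B := d * (y - x) with hB
      set C := d * (z - y) with hC
      have h1 : d * (y - j) = A + B := by rw [hA, hB]; ring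
      have h2 : d * (z - x) = B + C := by rw [hB, hC]; ring
      have h3 : d * (z - j) = A + (B + C) := by rw [hA, hB, hC]; ring
      rw [h1, h2, h3]
      simp only [Real.sin_add, Real.cos_add]
      linear_combination (Real.sin A * Real.sin C) * Real.sin_sq_add_cos_sq B
    exact ⟨e.le, fun _ => e⟩
  · rcases le_or_gt z (j : ℝ) with h' | h'
    · have e : fj d j y * Real.sin (d * (z - x)) - fj d j x * Real.sin (d * (z - y)) -
        fj d j z * Real.sin (d * (y - x)) = 0 := by
        rw [fj_of_ge h', fj_of_ge (hyz.trans h'), fj_of_ge (hxy.trans (hyz.trans h'))]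
        ring
      exact ⟨e.le, fun _ => e⟩
    · refine ⟨?_, fun hh => by rcases hh with hh | hh <;> linarith⟩
      rw [fj_of_ge h.le, fj_of_le h'.le]
      have hs1 : 0 ≤ Real.sin (d * (z - j)) := Real.sin_nonneg_of_nonneg_of_le_pi
        (mul_nonneg hd (by linarith)) (le_trans (mul_le_mul_of_nonneg_left (by linarith) hd) hdz)
      have hs2 : 0 ≤ Real.sin (d * (y - x)) := Real.sin_nonneg_of_nonneg_of_le_pi
        (mul_nonneg hd (by linarith)) (le_trans (mul_le_mul_of_nonneg_left (by linarith) hd) hdz)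
      have hs3 : 0 ≤ Real.sin (d * (z - y)) := Real.sin_nonneg_of_nonneg_of_le_pi
        (mul_nonneg hd (by linarith)) (le_trans (mul_le_mul_of_nonneg_left (by linarith) hd) hdz)
      have hs4 : 0 ≤ Real.sin (d * (j - x)) := Real.sin_nonneg_of_nonneg_of_le_pi
        (mul_nonneg hd (by linarith)) (le_trans (mul_le_mul_of_nonneg_left (by linarith) hd) hdz)
      rcases le_total y (j : ℝ) with hy | hy
      · rw [fj_of_ge hy]
        nlinarith [mul_nonneg hs1 hs2]
      · rw [fj_of_le hy]
        have e : Real.sin (d * (y - j)) * Real.sin (d * (z - x)) - 0 * Real.sin (d * (z - y)) -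
            Real.sin (d * (z - j)) * Real.sin (d * (y - x)) =
            -(Real.sin (d * (j - x)) * Real.sin (d * (z - y))) := by
          set A := d * (j - x) with hA
          set B := d * (y - j) with hB
          set C := d * (z - y) with hC
          have h2 : d * (z - x) = A + (B + C) := by rw [hA, hB, hC]; ring
          have h3 : d * (z - j) = B + C := by rw [hB, hC]; ring
          have h4 : d * (y - x) = A + B := by rw [hA, hB]; ring
          rw [h2, h3, h4]
          simp only [Real.sin_add, Real.cos_add]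
          linear_combination (-(Real.sin A * Real.sin C)) * Real.sin_sq_add_cos_sq B
        rw [e]
        nlinarith [mul_nonneg hs4 hs3]

/-- trigonometric convexity on an interval in which all masses have the sign `e` -/
theorem vv_convex {d : ℝ} (hd : 0 ≤ d) (s : ℕ → ℝ) (N : ℕ) {x y z : ℝ} (hxy : x ≤ y)
    (hyz : y ≤ z) (hdz : d * (z - x) < π) (hdz0 : 0 < d * (z - x)) {e : ℝ}
    (hs : ∀ j : ℕ, j ≤ N → x < j → (j : ℝ) < z → 0 ≤ e * s j)
    (hx : e * vv d s N x ≤ 0) (hz : e * vv d s N z ≤ 0) : e * vv d s N y ≤ 0 := by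
  have hsin : 0 < Real.sin (d * (z - x)) := Real.sin_pos_of_pos_of_lt_pi hdz0 hdz
  have h1 : 0 ≤ Real.sin (d * (z - y)) := Real.sin_nonneg_of_nonneg_of_le_pi
    (mul_nonneg hd (by linarith)) (le_trans (mul_le_mul_of_nonneg_left (by linarith) hd) hdz.le)
  have h2 : 0 ≤ Real.sin (d * (y - x)) := Real.sin_nonneg_of_nonneg_of_le_pi
    (mul_nonneg hd (by linarith)) (le_trans (mul_le_mul_of_nonneg_left (by linarith) hd) hdz.le)
  have key : e * (vv d s N y * Real.sin (d * (z - x)) - vv d s N x * Real.sin (d * (z - y)) -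
      vv d s N z * Real.sin (d * (y - x))) ≤ 0 := by
    have : e * (vv d s N y * Real.sin (d * (z - x)) - vv d s N x * Real.sin (d * (z - y)) -
      vv d s N z * Real.sin (d * (y - x))) = ∑ j ∈ Finset.range (N + 1), (e * s j) *
        (fj d j y * Real.sin (d * (z - x)) - fj d j x * Real.sin (d * (z - y)) -
      fj d j z * Real.sin (d * (y - x))) := by
      unfold vv
      simp only [Finset.sum_mul, ← Finset.sum_sub_distrib, Finset.mul_sum]
      exact Finset.sum_congr rfl fun j _ => by ring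
    rw [this]
    refine Finset.sum_nonpos fun j hj => ?_
    have hjN : j ≤ N := by have := Finset.mem_range.1 hj; omega
    obtain ⟨g1, g2⟩ := green hd (j := j) hxy hyz hdz.le
    by_cases hc : (j : ℝ) ≤ x ∨ z ≤ j
    · rw [g2 hc, mul_zero]
    · push Not at hc
      exact mul_nonpos_of_nonneg_of_nonpos (hs j hjN hc.1 hc.2) g1
  have h3 : e * vv d s N y * Real.sin (d * (z - x)) ≤ 0 := by
    nlinarith [mul_nonneg (neg_nonneg.2 hx) h1, mul_nonneg (neg_nonneg.2 hz) h2]
  by_contra hcon
  push Not at hcon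
  nlinarith [mul_pos hcon hsin]

/-- the recurrence at the integers -/
theorem vv_rec (d : ℝ) (s : ℕ → ℝ) (N : ℕ) (j : ℕ) (hj : j ≤ N) :
    vv d s N (j + 1) - 2 * Real.cos d * vv d s N j + vv d s N (j - 1) = s j * Real.sin d := by
  unfold vv
  have h : ∀ i : ℕ, fj d i (j + 1) - 2 * Real.cos d * fj d i j + fj d i (j - 1) =
      if i = j then Real.sin d else 0 := by
    intro i
    rcases lt_trichotomy i j with h | h | h
    · have h1 : (i : ℝ) + 1 ≤ j := by exact_mod_cast h
      rw [if_neg h.ne, fj_of_le (by linarith), fj_of_le (by linarith), fj_of_le (by linarith)]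
      have e1 : d * ((j : ℝ) + 1 - i) = d * (j - i) + d := by ring
      have e2 : d * ((j : ℝ) - 1 - i) = d * (j - i) - d := by ring
      rw [e1, e2, Real.sin_add, Real.sin_sub]
      ring
    · subst h
      rw [if_pos rfl, fj_of_le (by linarith), fj_of_le (le_refl _), fj_of_ge (by linarith)]
      simp
    · have h1 : (j : ℝ) + 1 ≤ i := by exact_mod_cast h
      rw [if_neg h.ne', fj_of_ge (by linarith), fj_of_ge (by linarith), fj_of_ge (by linarith)]
      ring
  have : ∑ i ∈ Finset.range (N + 1), s i * fj d i (j + 1) -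
      2 * Real.cos d * ∑ i ∈ Finset.range (N + 1), s i * fj d i j +
      ∑ i ∈ Finset.range (N + 1), s i * fj d i (j - 1) =
      ∑ i ∈ Finset.range (N + 1), s i * (if i = j then Real.sin d else 0) := by
    rw [Finset.mul_sum, ← Finset.sum_sub_distrib, ← Finset.sum_add_distrib]
    refine Finset.sum_congr rfl fun i _ => ?_
    rw [← h i]; ring
  rw [this]
  simp only [mul_ite, mul_zero]
  rw [Finset.sum_ite_eq' (Finset.range (N + 1)) j (fun i => s i * Real.sin d),
    if_pos (Finset.mem_range.2 (by omega))]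

/-- before the first mass nothing moves -/
theorem vv_nonpos {d : ℝ} {s : ℕ → ℝ} {N : ℕ} {x : ℝ} (hx : x ≤ 0) : vv d s N x = 0 := by
  unfold vv
  refine Finset.sum_eq_zero fun j _ => ?_
  rw [fj_of_ge (by have : (0 : ℝ) ≤ j := Nat.cast_nonneg j; linarith), mul_zero]

/-- no motion after the last mass -/
theorem vv_large {d : ℝ} {s : ℕ → ℝ} {N : ℕ}
    (hc : ∑ j ∈ Finset.range (N + 1), s j * Real.cos (d * j) = 0)
    (hs : ∑ j ∈ Finset.range (N + 1), s j * Real.sin (d * j) = 0) {x : ℝ} (hx : (N : ℝ) ≤ x) :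
    vv d s N x = 0 := by
  unfold vv
  have : ∀ j ∈ Finset.range (N + 1), s j * fj d j x =
      Real.sin (d * x) * (s j * Real.cos (d * j)) - Real.cos (d * x) * (s j * Real.sin (d * j)) := by
    intro j hj
    have h1 : (j : ℝ) ≤ N := by
      have := Finset.mem_range.1 hj
      exact_mod_cast Nat.lt_succ_iff.1 this
    rw [fj_of_le (h1.trans hx), show d * (x - j) = d * x - d * j by ring, Real.sin_sub]
    ring
  rw [Finset.sum_congr rfl this, Finset.sum_sub_distrib, ← Finset.mul_sum, ← Finset.mul_sum, hc, hs]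
  ring

/-- total transform at any point is zero -/
theorem total_sin {d : ℝ} {s : ℕ → ℝ} {N : ℕ}
    (hc : ∑ j ∈ Finset.range (N + 1), s j * Real.cos (d * j) = 0)
    (hs : ∑ j ∈ Finset.range (N + 1), s j * Real.sin (d * j) = 0) (x : ℝ) :
    ∑ j ∈ Finset.range (N + 1), s j * Real.sin (d * (x - j)) = 0 := by
  have : ∀ j ∈ Finset.range (N + 1), s j * Real.sin (d * (x - j)) =
      Real.sin (d * x) * (s j * Real.cos (d * j)) - Real.cos (d * x) * (s j * Real.sin (d * j)) := by
    intro j hj
    rw [show d * (x - j) = d * x - d * j by ring, Real.sin_sub]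
    ring
  rw [Finset.sum_congr rfl this, Finset.sum_sub_distrib, ← Finset.mul_sum, ← Finset.mul_sum, hc, hs]
  ring

theorem total_cos {d : ℝ} {s : ℕ → ℝ} {N : ℕ}
    (hc : ∑ j ∈ Finset.range (N + 1), s j * Real.cos (d * j) = 0)
    (hs : ∑ j ∈ Finset.range (N + 1), s j * Real.sin (d * j) = 0) (x : ℝ) :
    ∑ j ∈ Finset.range (N + 1), s j * Real.cos (d * (x - j)) = 0 := by
  have : ∀ j ∈ Finset.range (N + 1), s j * Real.cos (d * (x - j)) =
      Real.cos (d * x) * (s j * Real.cos (d * j)) + Real.sin (d * x) * (s j * Real.sin (d * j)) := by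
    intro j hj
    rw [show d * (x - j) = d * x - d * j by ring, Real.cos_sub]
    ring
  rw [Finset.sum_congr rfl this, Finset.sum_add_distrib, ← Finset.mul_sum, ← Finset.mul_sum, hc, hs]
  ring

/-- the piece before the first node -/
theorem vv_first {d : ℝ} (hd : 0 ≤ d) (s : ℕ → ℝ) (N : ℕ) {y L e : ℝ} (hyL : y ≤ L)
    (hL : d * L ≤ π / 2) (hs : ∀ j : ℕ, j ≤ N → (j : ℝ) < y → 0 ≤ e * s j) {t : ℝ} (ht : t ≤ y) :
    0 ≤ e * vv d s N t := by
  unfold vv
  rw [Finset.mul_sum]
  refine Finset.sum_nonneg fun j hj => ?_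
  have hjN : j ≤ N := by have := Finset.mem_range.1 hj; omega
  rcases lt_or_ge (j : ℝ) t with h | h
  · rw [fj_of_le h.le, ← mul_assoc]
    refine mul_nonneg (hs j hjN (h.trans_le ht)) (Real.sin_nonneg_of_nonneg_of_le_pi
      (mul_nonneg hd (by linarith)) ?_)
    have h0 : (0 : ℝ) ≤ j := Nat.cast_nonneg j
    have : d * (t - j) ≤ d * L := mul_le_mul_of_nonneg_left (by linarith) hd
    linarith [Real.pi_pos]
  · rw [fj_of_ge h]; simp

/-- the piece after the last node -/
theorem vv_last {d : ℝ} (hd : 0 ≤ d) (s : ℕ → ℝ) (N : ℕ)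
    (hc : ∑ j ∈ Finset.range (N + 1), s j * Real.cos (d * j) = 0)
    (hss : ∑ j ∈ Finset.range (N + 1), s j * Real.sin (d * j) = 0)
    {y L e : ℝ} (hyL : (N : ℝ) ≤ y + L)
    (hL : d * L ≤ π / 2) (hs : ∀ j : ℕ, j ≤ N → y < (j : ℝ) → 0 ≤ e * s j) {t : ℝ} (ht : y ≤ t) :
    0 ≤ e * vv d s N t := by
  have h1 : e * vv d s N t = ∑ j ∈ Finset.range (N + 1),
      (e * s j) * (fj d j t - Real.sin (d * (t - j))) := by
    have h2 := total_sin hc hss t
    calc e * vv d s N t = e * (vv d s N t - ∑ j ∈ Finset.range (N + 1),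
          s j * Real.sin (d * (t - j))) := by rw [h2, sub_zero]
      _ = _ := by
        unfold vv
        rw [← Finset.sum_sub_distrib, Finset.mul_sum]
        exact Finset.sum_congr rfl fun j _ => by ring
  rw [h1]
  refine Finset.sum_nonneg fun j hj => ?_
  have hjN : j ≤ N := by have := Finset.mem_range.1 hj; omega
  rcases le_or_gt (j : ℝ) t with h | h
  · rw [fj_of_le h]; simp
  · rw [fj_of_ge h.le, zero_sub, ← Real.sin_neg, show -(d * (t - j)) = d * (j - t) by ring]
    refine mul_nonneg (hs j hjN (lt_of_le_of_lt ht h)) (Real.sin_nonneg_of_nonneg_of_le_pi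
      (mul_nonneg hd (by linarith)) ?_)
    have h0 : (j : ℝ) ≤ N := by exact_mod_cast hjN
    have : d * (j - t) ≤ d * L := mul_le_mul_of_nonneg_left (by linarith) hd
    linarith [Real.pi_pos]

theorem vv_nat (d : ℝ) (s : ℕ → ℝ) (N J : ℕ) (hJ : J ≤ N) : vv d s N J =
    ∑ j ∈ Finset.range J, s j * Real.sin (d * (J - j)) := by
  unfold vv
  have hsub : Finset.range J ⊆ Finset.range (N + 1) := Finset.range_subset_range.2 (by omega)
  rw [← Finset.sum_subset hsub (f := fun j => s j * fj d j J)]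
  · refine Finset.sum_congr rfl fun j hj => ?_
    rw [fj_of_le (by have := Finset.mem_range.1 hj; exact_mod_cast this.le)]
  · intro j _ hj
    have : J ≤ j := by
      by_contra h
      exact hj (Finset.mem_range.2 (by omega))
    rw [fj_of_ge (by exact_mod_cast this), mul_zero]

/-- left of an integer point `J` -/
theorem vv_left {d : ℝ} (hd : 0 < d) (s : ℕ → ℝ) (N J : ℕ) (hJ : J ≤ N)
    {L : ℝ} (hL : d * L ≤ π / 2) (hs : ∀ j : ℕ, j < J → (J : ℝ) - L < (j : ℝ) → s j ≤ 0)
    (hv : vv d s N J ≤ 0) (hw : 0 < ww d s J) {t : ℝ} (ht : t < J) (htL : (J : ℝ) - L ≤ t) :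
    vv d s N t < 0 := by
  set θ := d * (J - t) with hθ
  have hθ0 : 0 < θ := mul_pos hd (by linarith)
  have hθ1 : θ ≤ π / 2 := le_trans (mul_le_mul_of_nonneg_left (by linarith) hd.le) hL
  have key : vv d s N t = vv d s N J * Real.cos θ - ww d s J * Real.sin θ +
      ∑ j ∈ Finset.range J, s j * (fj d j t - Real.sin (d * (t - j))) := by
    rw [vv_nat d s N J hJ]
    have h1 : vv d s N t = ∑ j ∈ Finset.range J, s j * fj d j t := by
      unfold vv
      have hsub : Finset.range J ⊆ Finset.range (N + 1) := Finset.range_subset_range.2 (by omega)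
      rw [← Finset.sum_subset hsub (f := fun j => s j * fj d j t)]
      intro j _ hj
      have : J ≤ j := by
        by_contra h
        exact hj (Finset.mem_range.2 (by omega))
      have h2 : (J : ℝ) ≤ j := by exact_mod_cast this
      rw [fj_of_ge (by linarith), mul_zero]
    rw [h1]
    unfold ww
    rw [Finset.sum_mul, Finset.sum_mul, ← Finset.sum_sub_distrib, ← Finset.sum_add_distrib]
    refine Finset.sum_congr rfl fun j _ => ?_
    have h3 : d * (t - j) = d * (J - j) - θ := by rw [hθ]; ring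
    rw [h3, Real.sin_sub]
    ring
  have hsum : ∑ j ∈ Finset.range J, s j * (fj d j t - Real.sin (d * (t - j))) ≤ 0 := by
    refine Finset.sum_nonpos fun j hj => ?_
    have hjJ := Finset.mem_range.1 hj
    rcases le_or_gt (j : ℝ) t with h | h
    · rw [fj_of_le h]; simp
    · rw [fj_of_ge h.le, zero_sub, ← Real.sin_neg, show -(d * (t - j)) = d * (j - t) by ring]
      refine mul_nonpos_of_nonpos_of_nonneg (hs j hjJ (by linarith))
        (Real.sin_nonneg_of_nonneg_of_le_pi (mul_nonneg hd.le (by linarith)) ?_)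
      have h0 : (j : ℝ) ≤ J := by exact_mod_cast hjJ.le
      have : d * (j - t) ≤ d * L := mul_le_mul_of_nonneg_left (by linarith) hd.le
      linarith [Real.pi_pos]
  have hcos : 0 ≤ Real.cos θ := Real.cos_nonneg_of_neg_pi_div_two_le_of_le
    (by linarith [Real.pi_pos]) hθ1
  have hsin : 0 < Real.sin θ := Real.sin_pos_of_pos_of_lt_pi hθ0 (by linarith [Real.pi_pos])
  rw [key]
  nlinarith [mul_pos hw hsin, mul_nonneg (neg_nonneg.2 hv) hcos]

/-- right of an integer point `J` with `s J = 0` -/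
theorem vv_right {d : ℝ} (hd : 0 < d) (s : ℕ → ℝ) (N J : ℕ) (hJ : J ≤ N)
    {L : ℝ} (hL : d * L ≤ π / 2)
    (hs : ∀ j : ℕ, J ≤ j → j ≤ N → (j : ℝ) < J + L → 0 ≤ s j)
    (hv : 0 ≤ vv d s N J) (hw : 0 < ww d s J) {t : ℝ} (ht : (J : ℝ) < t) (htL : t ≤ (J : ℝ) + L) :
    0 < vv d s N t := by
  set θ := d * (t - J) with hθ
  have hθ0 : 0 < θ := mul_pos hd (by linarith)
  have hθ1 : θ ≤ π / 2 := le_trans (mul_le_mul_of_nonneg_left (by linarith) hd.le) hL
  have key : vv d s N t = vv d s N J * Real.cos θ + ww d s J * Real.sin θ +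
      ∑ j ∈ Finset.Ico J (N + 1), s j * fj d j t := by
    rw [vv_nat d s N J hJ]
    have h1 : vv d s N t = ∑ j ∈ Finset.range J, s j * fj d j t +
        ∑ j ∈ Finset.Ico J (N + 1), s j * fj d j t := by
      unfold vv
      rw [Finset.range_eq_Ico, Finset.range_eq_Ico,
        Finset.sum_Ico_consecutive _ (Nat.zero_le J) (by omega)]
    rw [h1]
    congr 1
    unfold ww
    rw [Finset.sum_mul, Finset.sum_mul, ← Finset.sum_add_distrib]
    refine Finset.sum_congr rfl fun j hj => ?_
    have hjJ : (j : ℝ) ≤ J := by exact_mod_cast (Finset.mem_range.1 hj).le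
    rw [fj_of_le (by linarith)]
    have h3 : d * (t - j) = d * (J - j) + θ := by rw [hθ]; ring
    rw [h3, Real.sin_add]
    ring
  have hsum : 0 ≤ ∑ j ∈ Finset.Ico J (N + 1), s j * fj d j t := by
    refine Finset.sum_nonneg fun j hj => ?_
    obtain ⟨hj1, hj2⟩ := Finset.mem_Ico.1 hj
    rcases lt_or_ge (j : ℝ) t with h | h
    · rw [fj_of_le h.le]
      refine mul_nonneg (hs j hj1 (by omega) (by linarith))
        (Real.sin_nonneg_of_nonneg_of_le_pi (mul_nonneg hd.le (by linarith)) ?_)
      have h0 : (J : ℝ) ≤ j := by exact_mod_cast hj1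
      have : d * (t - j) ≤ d * L := mul_le_mul_of_nonneg_left (by linarith) hd.le
      linarith [Real.pi_pos]
    · rw [fj_of_ge h]; simp
  have hcos : 0 ≤ Real.cos θ := Real.cos_nonneg_of_neg_pi_div_two_le_of_le
    (by linarith [Real.pi_pos]) hθ1
  have hsin : 0 < Real.sin θ := Real.sin_pos_of_pos_of_lt_pi hθ0 (by linarith [Real.pi_pos])
  rw [key]
  nlinarith [mul_pos hw hsin, mul_nonneg hv hcos]

/-- the velocity at `J` from the right -/
theorem ww_right {d : ℝ} {s : ℕ → ℝ} {N : ℕ}
    (hc : ∑ j ∈ Finset.range (N + 1), s j * Real.cos (d * j) = 0)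
    (hss : ∑ j ∈ Finset.range (N + 1), s j * Real.sin (d * j) = 0) {J : ℕ} (hJ : J ≤ N) :
    ww d s J = -∑ j ∈ Finset.Ico J (N + 1), s j * Real.cos (d * (j - J)) := by
  have h := total_cos hc hss (J : ℝ)
  rw [Finset.range_eq_Ico, ← Finset.sum_Ico_consecutive _ (Nat.zero_le J) (by omega : J ≤ N + 1)] at h
  unfold ww
  rw [Finset.range_eq_Ico]
  have h2 : ∑ j ∈ Finset.Ico J (N + 1), s j * Real.cos (d * (j - J)) =
      ∑ j ∈ Finset.Ico J (N + 1), s j * Real.cos (d * (J - j)) := by
    refine Finset.sum_congr rfl fun j _ => ?_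
    rw [← Real.cos_neg, show -(d * ((j : ℝ) - J)) = d * (J - j) by ring]
  rw [h2]
  linarith

end Pool.Agent.MP_fe2d2a_anK
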