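import Mathlib
import Pool.Agent.Lib.MP_fe2d2a_anK.Osc

/-!
Counting the sign changes of the driven oscillator, node by node.
-/

set_option autoImplicit false

namespace Pool.Agent.MP_fe2d2a_anK

open Real

/-- `SC v x q e`: on `(-∞, x]` the function `v` has at most `q` sign changes (of the parity of `q`),
its last sign being `e`. -/
inductive SC (v : ℝ → ℝ) : ℝ → ℕ → ℝ → Prop
  | base {x e : ℝ} : (∀ t ≤ x, 0 ≤ e * v t) → SC v x 0 e
  | ext {x y : ℝ} {q : ℕ} {e : ℝ} : SC v x q e → x ≤ y → (∀ t, x ≤ t → t ≤ y → 0 ≤ e * v t) →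
      SC v y q e
  | flip {x : ℝ} {q : ℕ} {e : ℝ} : SC v x q e → SC v x (q + 1) (-e)

def SCle (v : ℝ → ℝ) (x : ℝ) (b : ℤ) (e : ℝ) : Prop := ∃ q : ℕ, (q : ℤ) ≤ b ∧ SC v x q e

theorem SC.toSB {v : ℝ → ℝ} {x : ℝ} {q : ℕ} {e : ℝ} (h : SC v x q e) :
    SB (fun j => v ((j : ℝ) + 1)) ⌊x⌋₊ q e := by
  induction h with
  | @base x e h =>
    refine SB.append (r := fun j => v ((j : ℝ) + 1)) (SB.nil (e := e)) (Nat.zero_le _) ?_
    intro j _ hj
    apply h
    have h1 : ((j + 1 : ℕ) : ℝ) ≤ ⌊x⌋₊ := by exact_mod_cast hj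
    have h2 : (⌊x⌋₊ : ℝ) ≤ x := by
      rcases le_or_gt 0 x with h | h
      · exact Nat.floor_le h
      · rw [Nat.floor_of_nonpos h.le] at hj; omega
    push_cast at h1
    linarith
  | @ext x y q e h1 h2 h3 ih =>
    refine SB.append ih (Nat.floor_mono h2) ?_
    intro j hj1 hj2
    apply h3
    · have h4 : x < (⌊x⌋₊ : ℝ) + 1 := Nat.lt_floor_add_one x
      have h5 : (⌊x⌋₊ : ℝ) ≤ j := by exact_mod_cast hj1
      linarith
    · have h1 : ((j + 1 : ℕ) : ℝ) ≤ ⌊y⌋₊ := by exact_mod_cast hj2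
      have h2 : (⌊y⌋₊ : ℝ) ≤ y := by
        rcases le_or_gt 0 y with h | h
        · exact Nat.floor_le h
        · rw [Nat.floor_of_nonpos h.le] at hj2; omega
      push_cast at h1
      linarith
  | flip _ ih => exact SB.flip ih

/-- the set where `e * v ≤ 0` in an interval, if convex, is an interval -/
theorem core {v : ℝ → ℝ} (hv : Continuous v) {e α β : ℝ}
    (hc : ∀ x y z, α ≤ x → x ≤ y → y ≤ z → z ≤ β → e * v x ≤ 0 → e * v z ≤ 0 → e * v y ≤ 0) :
    (∀ t, α ≤ t → t ≤ β → 0 < e * v t) ∨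
    ∃ p p', α ≤ p ∧ p ≤ p' ∧ p' ≤ β ∧ (∀ t, p ≤ t → t ≤ p' → e * v t ≤ 0) ∧
      (∀ t, α ≤ t → t < p → 0 < e * v t) ∧ (∀ t, p' < t → t ≤ β → 0 < e * v t) ∧
      (α < p → 0 ≤ e * v p) ∧ (p' < β → 0 ≤ e * v p') := by
  classical
  have hcont : Continuous fun t => e * v t := hv.const_mul e |>.congr fun _ => rfl
  set A : Set ℝ := {t | α ≤ t ∧ t ≤ β ∧ e * v t ≤ 0} with hA
  rcases A.eq_empty_or_nonempty with hE | hE
  · left
    intro t h1 h2
    by_contra h3
    push Not at h3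
    have : t ∈ A := ⟨h1, h2, h3⟩
    rw [hE] at this
    exact this
  · right
    have hcl : IsClosed A := by
      have : A = Set.Icc α β ∩ {t | e * v t ≤ 0} := by
        ext t; simp only [hA, Set.mem_ofPred_eq, Set.mem_inter_iff, Set.mem_Icc]; tauto
      rw [this]
      exact isClosed_Icc.inter (isClosed_le hcont continuous_const)
    have hb : BddBelow A := ⟨α, fun t ht => ht.1⟩
    have hab : BddAbove A := ⟨β, fun t ht => ht.2.1⟩
    have hp : sInf A ∈ A := hcl.csInf_mem hE hb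
    have hp' : sSup A ∈ A := hcl.csSup_mem hE hab
    have hlow : ∀ t, α ≤ t → t < sInf A → 0 < e * v t := by
      intro t h1 h2
      by_contra h3
      push Not at h3
      have : t ∈ A := ⟨h1, h2.le.trans hp.2.1, h3⟩
      exact absurd (csInf_le hb this) (not_le.2 h2)
    have hhigh : ∀ t, sSup A < t → t ≤ β → 0 < e * v t := by
      intro t h1 h2
      by_contra h3
      push Not at h3
      have : t ∈ A := ⟨hp'.1.trans h1.le, h2, h3⟩
      exact absurd (le_csSup hab this) (not_le.2 h1)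
    refine ⟨sInf A, sSup A, hp.1, csInf_le hb hp', hp'.2.1, ?_, hlow, hhigh, ?_, ?_⟩
    · intro t h1 h2
      exact hc _ _ _ hp.1 h1 h2 hp'.2.1 hp.2.2 hp'.2.2
    · intro h
      by_contra h3
      push Not at h3
      have h4 : ∀ᶠ t in nhds (sInf A), e * v t < 0 := hcont.continuousAt.eventually_lt
        continuousAt_const h3
      have h5 : ∀ᶠ t in nhds (sInf A), α < t := lt_mem_nhds h
      obtain ⟨t, ht, ht1⟩ := ((h4.and h5).filter_mono nhdsWithin_le_nhds |>.and
        (self_mem_nhdsWithin (s := Set.Iio (sInf A)) (a := sInf A))).exists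
      have := hlow t ht.2.le ht1
      linarith [ht.1]
    · intro h
      by_contra h3
      push Not at h3
      have h4 : ∀ᶠ t in nhds (sSup A), e * v t < 0 := hcont.continuousAt.eventually_lt
        continuousAt_const h3
      have h5 : ∀ᶠ t in nhds (sSup A), t < β := gt_mem_nhds h
      obtain ⟨t, ht, ht1⟩ := ((h4.and h5).filter_mono nhdsWithin_le_nhds |>.and
        (self_mem_nhdsWithin (s := Set.Ioi (sSup A)) (a := sSup A))).exists
      have := hhigh t ht1 ht.2.le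
      linarith [ht.1]

section pat

variable {v : ℝ → ℝ} (hv : Continuous v) {e α β : ℝ} (hαβ : α ≤ β)
    (hc : ∀ x y z, α ≤ x → x ≤ y → y ≤ z → z ≤ β → e * v x ≤ 0 → e * v z ≤ 0 → e * v y ≤ 0)

include hαβ hc in
theorem pat_nn {q : ℕ} (h : SC v α q (-e)) (h1 : e * v α ≤ 0) (h2 : e * v β ≤ 0) :
    SC v β q (-e) :=
  SC.ext h hαβ fun t ht1 ht2 => by
    have := hc α t β le_rfl ht1 ht2 le_rfl h1 h2
    linarith

include hv hc in
theorem pat_np {q : ℕ} (h : SC v α q (-e)) (h1 : e * v α ≤ 0) (hαβ : α ≤ β)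
    (h2 : 0 ≤ e * v β) : SC v β (q + 1) e := by
  rcases core hv hc with hh | ⟨p, p', hp1, hp2, hp3, hp4, hp5, hp6, hp7, hp8⟩
  · exact absurd (hh α le_rfl hαβ) (not_lt.2 h1)
  · have hpα : p = α := by
      by_contra hne
      exact absurd (hp5 α le_rfl (lt_of_le_of_ne hp1 (Ne.symm hne))) (not_lt.2 h1)
    subst hpα
    have a1 : SC v p' q (-e) := SC.ext h hp2 fun t ht1 ht2 => by
      have := hp4 t ht1 ht2; linarith
    have a2 : SC v p' (q + 1) e := by have := a1.flip; rwa [neg_neg] at this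
    refine SC.ext a2 hp3 fun t ht1 ht2 => ?_
    rcases ht1.eq_or_lt with h | h
    · rw [← h]
      rcases hp3.eq_or_lt with h' | h'
      · rw [h']; exact h2
      · exact hp8 h'
    · exact (hp6 t h ht2).le

include hv hc in
theorem pat_pn {q : ℕ} (h : SC v α q e) (h1 : 0 ≤ e * v α) (hαβ : α ≤ β)
    (h2 : e * v β ≤ 0) : SC v β (q + 1) (-e) := by
  rcases core hv hc with hh | ⟨p, p', hp1, hp2, hp3, hp4, hp5, hp6, hp7, hp8⟩
  · exact absurd (hh β hαβ le_rfl) (not_lt.2 h2)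
  · have hpβ : p' = β := by
      by_contra hne
      exact absurd (hp6 β (lt_of_le_of_ne hp3 hne) le_rfl) (not_lt.2 h2)
    subst hpβ
    have a1 : SC v p q e := SC.ext h hp1 fun t ht1 ht2 => by
      rcases ht2.eq_or_lt with h | h
      · rw [h]
        rcases hp1.eq_or_lt with h' | h'
        · rw [← h']; exact h1
        · exact hp7 h'
      · exact (hp5 t ht1 h).le
    exact SC.ext a1.flip hp2 fun t ht1 ht2 => by
      have := hp4 t ht1 ht2; linarith

include hv hc in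
theorem pat_pp {q : ℕ} (h : SC v α q e) (h1 : 0 ≤ e * v α) (hαβ : α ≤ β)
    (h2 : 0 ≤ e * v β) : SC v β (q + 2) e := by
  rcases core hv hc with hh | ⟨p, p', hp1, hp2, hp3, hp4, hp5, hp6, hp7, hp8⟩
  · have a1 : SC v β q e := SC.ext h hαβ fun t ht1 ht2 => (hh t ht1 ht2).le
    have := a1.flip.flip
    rwa [neg_neg] at this
  · have a1 : SC v p q e := SC.ext h hp1 fun t ht1 ht2 => by
      rcases ht2.eq_or_lt with h | h
      · rw [h]
        rcases hp1.eq_or_lt with h' | h'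
        · rw [← h']; exact h1
        · exact hp7 h'
      · exact (hp5 t ht1 h).le
    have a2 : SC v p' (q + 1) (-e) := SC.ext a1.flip hp2 fun t ht1 ht2 => by
      have := hp4 t ht1 ht2; linarith
    have a3 : SC v p' (q + 2) e := by have := a2.flip; rwa [neg_neg] at this
    refine SC.ext a3 hp3 fun t ht1 ht2 => ?_
    rcases ht1.eq_or_lt with h | h
    · rw [← h]
      rcases hp3.eq_or_lt with h' | h'
      · rw [h']; exact h2
      · exact hp8 h'
    · exact (hp6 t h ht2).le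

end pat

/-- the data: nodes `y m = y 0 + m L`, signs `E m` of the pieces -/
structure Nodes (d L : ℝ) (s : ℕ → ℝ) (N : ℕ) (y E : ℕ → ℝ) : Prop where
  hd : 0 < d
  hL : 0 < L
  hdL : d * L ≤ π / 2
  hy : ∀ m, y (m + 1) = y m + L
  hE : ∀ m, E (m + 1) = -E m
  hy0 : y 0 ≤ 0
  hs : ∀ m j : ℕ, j ≤ N → y m ≤ j → (j : ℝ) ≤ y (m + 1) → 0 ≤ E m * s j

def InvS (v : ℝ → ℝ) (y E : ℕ → ℝ) (m : ℕ) (b : ℤ) : Prop :=
  (E m * v (y m) ≤ 0 → SCle v (y m) (b + 1) (-E m)) ∧ (0 < E m * v (y m) → SCle v (y m) b (E m))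

def InvW (v : ℝ → ℝ) (y E : ℕ → ℝ) (m : ℕ) (b : ℤ) : Prop :=
  (E m * v (y m) ≤ 0 → SCle v (y m) (b + 1) (-E m)) ∧ (0 ≤ E m * v (y m) → SCle v (y m) b (E m))

variable {d L : ℝ} {s : ℕ → ℝ} {N : ℕ} {y E : ℕ → ℝ}

theorem Nodes.conv (h : Nodes d L s N y E) (m : ℕ) :
    ∀ a b c, y m ≤ a → a ≤ b → b ≤ c → c ≤ y (m + 1) → E m * vv d s N a ≤ 0 →
      E m * vv d s N c ≤ 0 → E m * vv d s N b ≤ 0 := by
  intro a b c h1 h2 h3 h4 h5 h6
  rcases (h2.trans h3).eq_or_lt with hac | hac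
  · have : b = a := le_antisymm (by rw [hac]; exact h3) h2
    rw [this]; exact h5
  · have hlen : c - a ≤ L := by have := h.hy m; linarith
    have h7 : d * (c - a) ≤ d * L := mul_le_mul_of_nonneg_left hlen h.hd.le
    refine vv_convex h.hd.le s N h2 h3 (by linarith [h.hdL, Real.pi_pos])
      (mul_pos h.hd (by linarith)) (fun j hj hj1 hj2 => ?_) h5 h6
    exact h.hs m j hj (by linarith) (by linarith)

theorem Nodes.mono (h : Nodes d L s N y E) (m : ℕ) : y m ≤ y (m + 1) := by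
  rw [h.hy]; linarith [h.hL]

theorem Nodes.step (h : Nodes d L s N y E) (m : ℕ) (b : ℤ)
    (hI : InvS (vv d s N) y E m b) : InvW (vv d s N) y E (m + 1) (b + 1) := by
  have hv := continuous_vv d s N
  have hc := h.conv m
  have hm := h.mono m
  refine ⟨fun h1 => ?_, fun h1 => ?_⟩
  · rw [h.hE] at h1 ⊢
    rw [neg_neg]
    have h2 : 0 ≤ E m * vv d s N (y (m + 1)) := by linarith
    rcases le_or_gt (E m * vv d s N (y m)) 0 with h3 | h3
    · obtain ⟨q, hq, hq2⟩ := hI.1 h3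
      exact ⟨q + 1, by push_cast; linarith, pat_np hv hc hq2 h3 hm h2⟩
    · obtain ⟨q, hq, hq2⟩ := hI.2 h3
      exact ⟨q + 2, by push_cast; linarith, pat_pp hv hc hq2 h3.le hm h2⟩
  · rw [h.hE] at h1 ⊢
    have h2 : E m * vv d s N (y (m + 1)) ≤ 0 := by linarith
    rcases le_or_gt (E m * vv d s N (y m)) 0 with h3 | h3
    · obtain ⟨q, hq, hq2⟩ := hI.1 h3
      exact ⟨q, hq, pat_nn hm hc hq2 h3 h2⟩
    · obtain ⟨q, hq, hq2⟩ := hI.2 h3
      exact ⟨q + 1, by push_cast; linarith, pat_pn hv hc hq2 h3.le hm h2⟩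

theorem InvW.toS {v : ℝ → ℝ} {y E : ℕ → ℝ} {m : ℕ} {b : ℤ} (h : InvW v y E m b) :
    InvS v y E m b := ⟨h.1, fun h1 => h.2 h1.le⟩

theorem Nodes.base (h : Nodes d L s N y E) : InvS (vv d s N) y E 1 (-1) := by
  have h0 : ∀ t ≤ y 1, 0 ≤ E 0 * vv d s N t := by
    intro t ht
    refine vv_first h.hd.le s N (y := y 1) (L := L) (by have := h.hy 0; linarith [h.hy0]) h.hdL
      (fun j hj hj1 => ?_) ht
    refine h.hs 0 j hj ?_ hj1.le
    have : (0 : ℝ) ≤ j := Nat.cast_nonneg j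
    linarith [h.hy0]
  have hE1 : E 1 = -E 0 := h.hE 0
  refine ⟨fun _ => ⟨0, by norm_num, ?_⟩, fun h1 => ?_⟩
  · rw [hE1, neg_neg]; exact SC.base h0
  · have := h0 (y 1) le_rfl
    rw [hE1] at h1
    linarith

theorem Nodes.inv (h : Nodes d L s N y E) (m : ℕ) :
    InvS (vv d s N) y E (m + 1) ((m : ℤ) - 1) := by
  induction m with
  | zero => simpa using h.base
  | succ m ih =>
    have := (h.step (m + 1) _ ih).toS
    have e : ((m + 1 : ℕ) : ℤ) - 1 = (m : ℤ) - 1 + 1 := by push_cast; ring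
    rw [e]; exact this

/-- the improvement at the node `J` -/
theorem Nodes.improved (h : Nodes d L s N y E) (m J : ℕ) (hJ : J ≤ N) (hy : y (m + 2) = J)
    (hE : E (m + 2) = 1) (hw : 0 < ww d s J) :
    InvW (vv d s N) y E (m + 3) ((m : ℤ) - 1) := by
  have hv := continuous_vv d s N
  have hE1 : E (m + 1) = -1 := by have := h.hE (m + 1); rw [hE] at this; linarith
  have hy1 : y (m + 1) = J - L := by have := h.hy (m + 1); rw [hy] at this; linarith
  have hy3 : y (m + 3) = J + L := by have := h.hy (m + 2); rw [hy] at this; exact this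
  have hE3 : E (m + 3) = -1 := by have := h.hE (m + 2); rw [hE] at this; exact this
  rcases le_or_gt (vv d s N J) 0 with h1 | h1
  · -- v(J) ≤ 0
    have hleft : ∀ t : ℝ, t < J → (J : ℝ) - L ≤ t → vv d s N t < 0 := by
      intro t ht1 ht2
      refine vv_left h.hd s N J hJ h.hdL (fun j hj1 hj2 => ?_) h1 hw ht1 ht2
      have := h.hs (m + 1) j (by omega) (by rw [hy1]; exact hj2.le)
        (by rw [hy]; exact_mod_cast hj1.le)
      rw [hE1] at this
      linarith
    have h2 : vv d s N (y (m + 1)) < 0 := by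
      rw [hy1]; exact hleft _ (by linarith [h.hL]) le_rfl
    obtain ⟨q, hq, hq2⟩ := (h.inv m).2 (by rw [hE1]; linarith)
    rw [hE1] at hq2
    have h3 : SC (vv d s N) (y (m + 2)) q (-1) := by
      refine SC.ext hq2 (h.mono (m + 1)) fun t ht1 ht2 => ?_
      rw [hy] at ht2
      rw [hy1] at ht1
      rcases ht2.eq_or_lt with h4 | h4
      · rw [h4]; linarith
      · linarith [hleft t h4 ht1]
    have hc := h.conv (m + 2)
    rw [hE] at hc
    have hm := h.mono (m + 2)
    refine ⟨fun h4 => ?_, fun h4 => ?_⟩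
    · rw [hE3] at h4 ⊢
      rw [neg_neg]
      exact ⟨q + 1, by push_cast; linarith,
        pat_np hv hc h3 (by rw [hy]; linarith) hm (by linarith)⟩
    · rw [hE3] at h4 ⊢
      exact ⟨q, hq, pat_nn hm hc h3 (by rw [hy]; linarith) (by linarith)⟩
  · -- v(J) > 0
    have hright : ∀ t : ℝ, (J : ℝ) < t → t ≤ (J : ℝ) + L → 0 < vv d s N t := by
      intro t ht1 ht2
      refine vv_right h.hd s N J hJ h.hdL (fun j hj0 hj1 hj2 => ?_) h1.le hw ht1 ht2
      have := h.hs (m + 2) j hj1 (by rw [hy]; exact_mod_cast hj0)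
        (by rw [hy3]; exact hj2.le)
      rw [hE] at this
      linarith
    have h2 : 0 < vv d s N (y (m + 3)) := by
      rw [hy3]; exact hright _ (by linarith [h.hL]) le_rfl
    obtain ⟨q, hq, hq2⟩ := (h.inv (m + 1)).2 (by rw [hE, hy]; linarith)
    rw [hE] at hq2
    have h3 : SC (vv d s N) (y (m + 3)) q 1 := by
      refine SC.ext hq2 (h.mono (m + 2)) fun t ht1 ht2 => ?_
      rw [hy3] at ht2
      change y (m + 2) ≤ t at ht1
      rw [hy] at ht1
      rcases ht1.eq_or_lt with h4 | h4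
      · rw [← h4]; linarith
      · linarith [hright t h4 ht2]
    refine ⟨fun h4 => ?_, fun h4 => ?_⟩
    · rw [hE3, neg_neg]
      exact ⟨q, by push_cast at hq; linarith, h3⟩
    · rw [hE3] at h4
      linarith

theorem Nodes.improved_up (h : Nodes d L s N y E) (m J : ℕ) (hJ : J ≤ N) (hy : y (m + 2) = J)
    (hE : E (m + 2) = 1) (hw : 0 < ww d s J) (k : ℕ) :
    InvW (vv d s N) y E (m + 3 + k) ((m : ℤ) - 1 + k) := by
  induction k with
  | zero => simpa using h.improved m J hJ hy hE hw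
  | succ k ih =>
    have := h.step _ _ ih.toS
    have e : (m : ℤ) - 1 + ((k + 1 : ℕ) : ℤ) = (m : ℤ) - 1 + k + 1 := by push_cast; ring
    rw [e]
    exact this

/-- conclusion of the count -/
theorem Nodes.final (h : Nodes d L s N y E)
    (hc : ∑ j ∈ Finset.range (N + 1), s j * Real.cos (d * j) = 0)
    (hss : ∑ j ∈ Finset.range (N + 1), s j * Real.sin (d * j) = 0)
    (m J k : ℕ) (hJ : J ≤ N) (hy : y (m + 2) = J)
    (hE : E (m + 2) = 1) (hw : 0 < ww d s J) (hN : (N : ℝ) ≤ y (m + 3 + k) + L) :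
    ∃ q : ℕ, (q : ℤ) ≤ (m : ℤ) - 1 + k ∧
      SB (fun j => vv d s N ((j : ℝ) + 1)) (N + 1) q (E (m + 3 + k)) := by
  have h1 := h.improved_up m J hJ hy hE hw k
  set Z := m + 3 + k with hZ
  have hlast : ∀ t, y Z ≤ t → 0 ≤ E Z * vv d s N t := by
    intro t ht
    refine vv_last h.hd.le s N hc hss (y := y Z) (L := L) hN h.hdL (fun j hj hj1 => ?_) ht
    refine h.hs Z j hj hj1.le ?_
    rw [h.hy]
    have : (j : ℝ) ≤ N := by exact_mod_cast hj
    linarith
  obtain ⟨q, hq, hq2⟩ := h1.2 (hlast _ le_rfl)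
  refine ⟨q, hq, ?_⟩
  have h3 : SC (vv d s N) (max (y Z) (N + 1)) q (E Z) :=
    SC.ext hq2 (le_max_left _ _) fun t ht _ => hlast t ht
  have h4 := h3.toSB
  -- restrict to the first `N + 1` entries: all later ones come after
  have h5 : (N + 1 : ℕ) ≤ ⌊max (y Z) ((N : ℝ) + 1)⌋₊ := by
    apply Nat.le_floor
    push_cast
    exact le_max_right _ _
  -- restriction of SB
  have hres : ∀ (r : ℕ → ℝ) (n q : ℕ) (e : ℝ), SB r n q e → ∀ n' ≤ n, (∀ j, n' ≤ j → r j = 0) →
      e ≠ 0 → SB r n' q e := by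
    intro r n q e hh
    induction hh with
    | nil => intro n' hn' _ _; rw [Nat.le_zero.1 hn']; exact SB.nil
    | @same n q e a1 a2 ih =>
      intro n' hn' h0 he
      rcases Nat.le_succ_iff.1 hn' with h | h
      · exact ih n' h h0 he
      · rw [h]; exact SB.same a1 a2
    | @flip n q e a1 ih =>
      intro n' hn' h0 he
      exact SB.flip (ih n' hn' h0 (by simpa using he))
  refine hres _ _ _ _ h4 _ h5 (fun j hj => ?_) ?_
  · have : (N : ℝ) ≤ (j : ℝ) + 1 := by
      have : ((N + 1 : ℕ) : ℝ) ≤ j := by exact_mod_cast hj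
      push_cast at this; linarith
    exact vv_large hc hss this
  · have : ∀ i, E (m + 2 + i) = 1 ∨ E (m + 2 + i) = -1 := by
      intro i
      induction i with
      | zero => left; exact hE
      | succ i ih =>
        rcases ih with ih | ih
        · right; rw [← add_assoc, h.hE, ih]
        · left; rw [← add_assoc, h.hE, ih, neg_neg]
    have h6 : Z = m + 2 + (k + 1) := by omega
    rw [h6]
    rcases this (k + 1) with h7 | h7 <;> rw [h7] <;> norm_num

end Pool.Agent.MP_fe2d2a_anK
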