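import Mathlib
import Pool.Agent.Lib.MP_fe2d2a_anK.Node

/-!
The velocity at the node `J` is not positive.
-/

set_option autoImplicit false

namespace Pool.Agent.MP_fe2d2a_anK

open Real

/-- sign of `sin (σ (j - J))` on a piece -/
theorem sin_piece {x : ℝ} (i m : ℕ) (h1 : ((i : ℝ) - (m + 2)) * π ≤ x)
    (h2 : x ≤ ((i : ℝ) - (m + 2)) * π + π) : 0 ≤ (-1 : ℝ) ^ (i + m) * Real.sin x := by
  set θ := x - ((i : ℝ) - (m + 2)) * π with hθ
  have h3 : x = θ + (((i : ℤ) - (m + 2) : ℤ) : ℝ) * π := by rw [hθ]; push_cast; ring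
  rw [h3, Real.sin_add_int_mul_pi]
  have h4 : (-1 : ℝ) ^ (i + m) * ((-1 : ℝ) ^ ((i : ℤ) - (m + 2)) * Real.sin θ) = Real.sin θ := by
    rw [← mul_assoc, ← zpow_natCast, ← zpow_add₀ (by norm_num : (-1 : ℝ) ≠ 0)]
    have : ((i + m : ℕ) : ℤ) + ((i : ℤ) - (m + 2)) = 2 * ((i : ℤ) - 1) := by push_cast; ring
    rw [this, zpow_mul]
    norm_num
  rw [h4]
  exact Real.sin_nonneg_of_nonneg_of_le_pi (by linarith) (by linarith)

/-- generating function identity -/
theorem gen_id (d : ℝ) (s : ℕ → ℝ) (N : ℕ)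
    (hc : ∑ j ∈ Finset.range (N + 1), s j * Real.cos (d * j) = 0)
    (hss : ∑ j ∈ Finset.range (N + 1), s j * Real.sin (d * j) = 0) (x : ℝ) :
    Real.sin d * ∑ j ∈ Finset.range (N + 1), s j * x ^ j =
      (x ^ 2 - 2 * Real.cos d * x + 1) *
        ∑ j ∈ Finset.range (N + 1), vv d s N ((j : ℝ) + 1) * x ^ j := by
  set v := vv d s N with hv
  have v0 : v 0 = 0 := vv_nonpos le_rfl
  have v1 : v (-1) = 0 := vv_nonpos (by norm_num)
  have vN : v N = 0 := vv_large hc hss le_rfl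
  have vN1 : v ((N : ℝ) + 1) = 0 := vv_large hc hss (by linarith)
  set G := ∑ j ∈ Finset.range (N + 1), v ((j : ℝ) + 1) * x ^ j with hG
  have e0 : Real.sin d * ∑ j ∈ Finset.range (N + 1), s j * x ^ j =
      G - 2 * Real.cos d * ∑ j ∈ Finset.range (N + 1), v j * x ^ j +
        ∑ j ∈ Finset.range (N + 1), v ((j : ℝ) - 1) * x ^ j := by
    rw [hG, Finset.mul_sum, Finset.mul_sum, ← Finset.sum_sub_distrib, ← Finset.sum_add_distrib]
    refine Finset.sum_congr rfl fun j hj => ?_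
    have := vv_rec d s N j (by have := Finset.mem_range.1 hj; omega)
    rw [← hv] at this
    linear_combination (-(x ^ j)) * this
  have e1 : ∑ j ∈ Finset.range (N + 1), v j * x ^ j = x * G := by
    have h1 : ∑ j ∈ Finset.range (N + 2), v j * x ^ j = x * G := by
      rw [Finset.sum_range_succ', hG, Finset.mul_sum]
      simp only [Nat.cast_zero, v0, zero_mul, add_zero]
      refine Finset.sum_congr rfl fun j _ => ?_
      push_cast; ring
    rw [← h1, Finset.sum_range_succ (n := N + 1)]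
    push_cast
    rw [vN1]; ring
  have e2 : ∑ j ∈ Finset.range (N + 1), v ((j : ℝ) - 1) * x ^ j = x ^ 2 * G := by
    have h1 : ∑ j ∈ Finset.range (N + 2), v ((j : ℝ) - 1) * x ^ j = x * (x * G) := by
      rw [Finset.sum_range_succ', ← e1, Finset.mul_sum]
      simp only [Nat.cast_zero, zero_sub, v1, zero_mul, add_zero]
      refine Finset.sum_congr rfl fun j _ => ?_
      push_cast; rw [add_sub_cancel_right]; ring
    rw [show x ^ 2 * G = x * (x * G) by ring, ← h1, Finset.sum_range_succ (n := N + 1)]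
    push_cast
    rw [add_sub_cancel_right, vN]; ring
  rw [e0, e1, e2]
  ring

theorem ww_nonpos (c : ℕ → ℝ) (N J : ℕ) (σ d : ℝ) (hcc : ∀ j, 0 ≤ c j) (hσ0 : 0 < σ)
    (hσπ : σ < π) (hd : 0 < d) (h2d : 2 * d ≤ σ) (hJ0 : 0 < J) (hJN : J < N) (s : ℕ → ℝ)
    (hsdef : ∀ j, s j = c j * Real.sin (σ * (j - J)))
    (hc : ∑ j ∈ Finset.range (N + 1), s j * Real.cos (d * j) = 0)
    (hss : ∑ j ∈ Finset.range (N + 1), s j * Real.sin (d * j) = 0)
    (hz : ∃ Φ : ℝ → ℝ, ∀ m : ℤ, -(σ * J) < m * π → m * π < σ * (N - J) - 2 * π →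
      ∃ x > 0, Φ x = m * π ∧ ∑ j ∈ Finset.range (N + 1), s j * x ^ j = 0) :
    ww d s J ≤ 0 := by
  by_contra hw
  push Not at hw
  have hpi := Real.pi_pos
  set L := π / σ with hLdef
  have hL : 0 < L := div_pos hpi hσ0
  have hσL : σ * L = π := by rw [hLdef]; field_simp
  have hL1 : 1 < L := by rw [hLdef, lt_div_iff₀ hσ0]; linarith
  have hdL : d * L ≤ π / 2 := by nlinarith
  have hdπ : d < π := by linarith
  have hJ0' : (0 : ℝ) < J := by exact_mod_cast hJ0
  have hJN' : (J : ℝ) < N := by exact_mod_cast hJN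
  -- direct cases
  rcases le_or_gt (J : ℝ) L with hJL | hJL
  · refine absurd hw (not_lt.2 ?_)
    unfold ww
    refine Finset.sum_nonpos fun j hj => ?_
    have hj' : (j : ℝ) < J := by exact_mod_cast Finset.mem_range.1 hj
    have hj0 : (0 : ℝ) ≤ j := Nat.cast_nonneg j
    refine mul_nonpos_of_nonpos_of_nonneg ?_ (Real.cos_nonneg_of_neg_pi_div_two_le_of_le ?_ ?_)
    · rw [hsdef]
      refine mul_nonpos_of_nonneg_of_nonpos (hcc j)
        (Real.sin_nonpos_of_nonpos_of_neg_pi_le ?_ ?_)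
      · nlinarith
      · nlinarith
    · have : 0 ≤ d * ((J : ℝ) - j) := mul_nonneg hd.le (by linarith)
      linarith
    · have : d * ((J : ℝ) - j) ≤ d * L := mul_le_mul_of_nonneg_left (by linarith) hd.le
      linarith
  rcases le_or_gt ((N : ℝ) - J) L with hNL | hNL
  · refine absurd hw (not_lt.2 ?_)
    rw [ww_right hc hss hJN.le, neg_nonpos]
    refine Finset.sum_nonneg fun j hj => ?_
    obtain ⟨hj1, hj2⟩ := Finset.mem_Ico.1 hj
    have hj1' : (J : ℝ) ≤ j := by exact_mod_cast hj1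
    have hj2' : (j : ℝ) ≤ N := by exact_mod_cast Nat.lt_succ_iff.1 hj2
    refine mul_nonneg ?_ (Real.cos_nonneg_of_neg_pi_div_two_le_of_le ?_ ?_)
    · rw [hsdef]
      refine mul_nonneg (hcc j) (Real.sin_nonneg_of_nonneg_of_le_pi ?_ ?_)
      · exact mul_nonneg hσ0.le (by linarith)
      · have : σ * ((j : ℝ) - J) ≤ σ * L := mul_le_mul_of_nonneg_left (by linarith) hσ0.le
        linarith
    · have : 0 ≤ d * ((j : ℝ) - J) := mul_nonneg hd.le (by linarith)
      linarith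
    · have : d * ((j : ℝ) - J) ≤ d * L := mul_le_mul_of_nonneg_left (by linarith) hd.le
      linarith
  -- the numbers of nodes
  have hceil : ∀ X : ℝ, L < X → ∃ m : ℕ, ((m : ℝ) + 1) * L < X ∧ X ≤ ((m : ℝ) + 2) * L := by
    intro X hX
    have h1 : 1 < X / L := by rw [lt_div_iff₀ hL]; linarith
    have h2 : 1 < ⌈X / L⌉₊ := by
      rw [Nat.lt_ceil]; exact_mod_cast h1
    obtain ⟨m, hm⟩ : ∃ m, ⌈X / L⌉₊ = m + 2 := ⟨⌈X / L⌉₊ - 2, by omega⟩
    refine ⟨m, ?_, ?_⟩
    · have h3 : ((m + 1 : ℕ) : ℝ) < X / L := by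
        rw [← Nat.lt_ceil, hm]; omega
      rw [lt_div_iff₀ hL] at h3
      push_cast at h3
      exact h3
    · have h3 : X / L ≤ ((m + 2 : ℕ) : ℝ) := by rw [← hm]; exact Nat.le_ceil _
      rw [div_le_iff₀ hL] at h3
      push_cast at h3
      exact h3
  obtain ⟨m, hm1, hm2⟩ := hceil J hJL
  obtain ⟨k, hk1, hk2⟩ := hceil ((N : ℝ) - J) hNL
  set y : ℕ → ℝ := fun i => (J : ℝ) + ((i : ℝ) - (m + 2)) * L with hy
  set E : ℕ → ℝ := fun i => (-1 : ℝ) ^ (i + m) with hE
  have hN : Nodes d L s N y E := by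
    refine ⟨hd, hL, hdL, fun i => ?_, fun i => ?_, ?_, fun i j _ h1 h2 => ?_⟩
    · simp only [hy]; push_cast; ring
    · simp only [hE]; rw [show i + 1 + m = (i + m) + 1 by ring, pow_succ]; ring
    · simp only [hy]; push_cast; linarith
    · simp only [hy] at h1 h2
      rw [hsdef, mul_left_comm]
      refine mul_nonneg (hcc j) (sin_piece i m ?_ ?_)
      · have : ((i : ℝ) - (m + 2)) * L ≤ (j : ℝ) - J := by linarith
        calc ((i : ℝ) - (m + 2)) * π = σ * (((i : ℝ) - (m + 2)) * L) := by rw [← hσL]; ring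
          _ ≤ σ * ((j : ℝ) - J) := mul_le_mul_of_nonneg_left this hσ0.le
      · have : (j : ℝ) - J ≤ ((i : ℝ) - (m + 2)) * L + L := by push_cast at h2; linarith
        calc σ * ((j : ℝ) - J) ≤ σ * (((i : ℝ) - (m + 2)) * L + L) :=
              mul_le_mul_of_nonneg_left this hσ0.le
          _ = ((i : ℝ) - (m + 2)) * π + π := by rw [← hσL]; ring
  have hyJ : y (m + 2) = J := by simp only [hy]; push_cast; ring
  have hEJ : E (m + 2) = 1 := by
    simp only [hE]; rw [show m + 2 + m = 2 * (m + 1) by ring, pow_mul]; norm_num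
  have hyN : (N : ℝ) ≤ y (m + 3 + k) + L := by
    simp only [hy]; push_cast; linarith
  obtain ⟨q, hq, hSB⟩ := hN.final hc hss m J k hJN.le hyJ hEJ hw hyN
  -- the zeros
  obtain ⟨Φ, hΦ⟩ := hz
  have hex : ∀ t : Fin (m + k + 1), ∃ x > 0, Φ x = (((-(m + 1 : ℤ) + (t : ℕ) : ℤ)) : ℝ) * π ∧
      ∑ j ∈ Finset.range (N + 1), s j * x ^ j = 0 := by
    intro t
    have ht : ((t : ℕ) : ℝ) ≤ m + k := by
      have := t.2
      exact_mod_cast Nat.lt_succ_iff.1 this
    have ht0 : (0 : ℝ) ≤ ((t : ℕ) : ℝ) := Nat.cast_nonneg _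
    refine hΦ _ ?_ ?_
    · have h1 : ((m : ℝ) + 1) * π < σ * J := by
        calc ((m : ℝ) + 1) * π = σ * (((m : ℝ) + 1) * L) := by rw [← hσL]; ring
          _ < σ * J := mul_lt_mul_of_pos_left hm1 hσ0
      push_cast
      nlinarith
    · have h1 : ((k : ℝ) + 1) * π < σ * (N - J) := by
        calc ((k : ℝ) + 1) * π = σ * (((k : ℝ) + 1) * L) := by rw [← hσL]; ring
          _ < σ * (N - J) := mul_lt_mul_of_pos_left hk1 hσ0
      push_cast
      nlinarith
  choose x hx0 hx1 hx2 using hex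
  have hinj : Function.Injective fun t => Real.log (x t) := by
    intro t t' h
    have h1 : x t = x t' := Real.log_injOn_pos (hx0 t) (hx0 t') h
    have h2 := hx1 t
    rw [h1, hx1 t'] at h2
    have h3 := mul_right_cancel₀ hpi.ne' h2
    have h4 : (-(m + 1 : ℤ) + (t' : ℕ) : ℤ) = (-(m + 1 : ℤ) + (t : ℕ) : ℤ) := by exact_mod_cast h3
    exact Fin.ext (by omega)
  have hcard : (Finset.univ.image fun t => Real.log (x t)).card = m + k + 1 := by
    rw [Finset.card_image_of_injective _ hinj, Finset.card_univ, Fintype.card_fin]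
  obtain ⟨Z, hZ1, hZ2⟩ := Finset.exists_subset_card_eq
    (s := Finset.univ.image fun t => Real.log (x t)) (n := q + 1) (by rw [hcard]; omega)
  have hEne : E (m + 3 + k) ≠ 0 := by simp only [hE]; positivity
  have hall := descartes q _ (N + 1) _ hEne hSB Z hZ2 (fun z hz => by
    obtain ⟨t, _, rfl⟩ := Finset.mem_image.1 (hZ1 hz)
    have h1 := gen_id d s N hc hss (x t)
    rw [hx2 t, mul_zero] at h1
    have hcos : Real.cos d < 1 := by
      have := Real.cos_lt_cos_of_nonneg_of_le_pi (le_refl 0) hdπ.le hd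
      simpa using this
    have hquad : 0 < (x t) ^ 2 - 2 * Real.cos d * x t + 1 := by
      nlinarith [sq_nonneg (x t - 1), hx0 t]
    have h2 := (mul_eq_zero.1 h1.symm).resolve_left hquad.ne'
    rw [← h2]
    refine Finset.sum_congr rfl fun j _ => ?_
    rw [Real.exp_nat_mul, Real.exp_log (hx0 t)])
  have hJ1 : vv d s N J = 0 := by
    have := hall (J - 1) (by omega)
    have h2 : (((J - 1 : ℕ) : ℝ) + 1) = J := by
      have : ((J - 1 : ℕ) : ℝ) = (J : ℝ) - 1 := by
        rw [Nat.cast_sub hJ0]; norm_num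
      rw [this]; ring
    simp only [h2] at this
    exact this
  have hJ2 : vv d s N ((J : ℝ) + 1) = 0 := hall J (by omega)
  have hpos := vv_right hd s N J hJN.le hdL (fun j hj1 hj2 hj3 => by
    have hj1' : (J : ℝ) ≤ j := by exact_mod_cast hj1
    rw [hsdef]
    refine mul_nonneg (hcc j) (Real.sin_nonneg_of_nonneg_of_le_pi
      (mul_nonneg hσ0.le (by linarith)) ?_)
    have : σ * ((j : ℝ) - J) ≤ σ * L := mul_le_mul_of_nonneg_left (by linarith) hσ0.le
    linarith) hJ1.ge hw (t := (J : ℝ) + 1) (by linarith) (by linarith)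
  linarith

end Pool.Agent.MP_fe2d2a_anK
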