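import Mathlib
import Pool.Agent.Lib.MP_fe2d2a_anK.Core
import Pool.Agent.Lib.MP_fe2d2a_anK.Arg2

/-!
The closed inequality: `sin a * P / q_a + sin b * P / q_b` has nonnegative coefficients.
-/

set_option autoImplicit false

namespace Pool.Agent.MP_fe2d2a_anK

open Polynomial Real

/-- the factor with the zeros `e^{±iθ}` -/
noncomputable def qq (θ : ℝ) : ℝ[X] := (X : ℝ[X]) ^ 2 - C (2 * Real.cos θ) * X + 1

theorem natDegree_qq (θ : ℝ) : (qq θ).natDegree ≤ 2 := by
  unfold qq
  compute_degree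

theorem quad_sum (θ : ℝ) (Q : ℝ[X]) (M : ℕ) (hQ : Q.natDegree < M) (g : ℕ → ℝ) :
    ∑ j ∈ Finset.range (M + 2), (qq θ * Q).coeff j * g j =
      ∑ j ∈ Finset.range M, Q.coeff j * (g (j + 2) - 2 * Real.cos θ * g (j + 1) + g j) := by
  have h0 : qq θ * Q = X * (X * Q) - C (2 * Real.cos θ) * (X * Q) + Q := by unfold qq; ring
  have e1 : ∑ j ∈ Finset.range (M + 2), (X * (X * Q)).coeff j * g j =
      ∑ j ∈ Finset.range M, Q.coeff j * g (j + 2) := by
    rw [Finset.sum_range_succ', Finset.sum_range_succ']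
    simp [coeff_X_mul]
  have e2 : ∑ j ∈ Finset.range (M + 2), (X * Q).coeff j * g j =
      ∑ j ∈ Finset.range M, Q.coeff j * g (j + 1) := by
    rw [Finset.sum_range_succ', Finset.sum_range_succ]
    simp [coeff_X_mul, coeff_eq_zero_of_natDegree_lt hQ]
  have e3 : ∑ j ∈ Finset.range (M + 2), Q.coeff j * g j =
      ∑ j ∈ Finset.range M, Q.coeff j * g j := by
    rw [Finset.sum_range_succ, Finset.sum_range_succ,
      coeff_eq_zero_of_natDegree_lt (by omega : Q.natDegree < M + 1),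
      coeff_eq_zero_of_natDegree_lt hQ]
    simp
  have e4 : ∑ j ∈ Finset.range (M + 2), (qq θ * Q).coeff j * g j =
      ∑ j ∈ Finset.range (M + 2), (X * (X * Q)).coeff j * g j -
        2 * Real.cos θ * ∑ j ∈ Finset.range (M + 2), (X * Q).coeff j * g j +
        ∑ j ∈ Finset.range (M + 2), Q.coeff j * g j := by
    rw [Finset.mul_sum, ← Finset.sum_sub_distrib, ← Finset.sum_add_distrib]
    refine Finset.sum_congr rfl fun j _ => ?_
    rw [h0, coeff_add, coeff_sub, coeff_C_mul]
    ring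
  rw [e4, e1, e2, e3, Finset.mul_sum, ← Finset.sum_sub_distrib, ← Finset.sum_add_distrib]
  exact Finset.sum_congr rfl fun j _ => by ring

/-- harmonic weights are killed -/
theorem quad_sum_harm (θ φ : ℝ) (Q : ℝ[X]) (M : ℕ) (hQ : Q.natDegree < M) :
    ∑ j ∈ Finset.range (M + 2), (qq θ * Q).coeff j * Real.sin (θ * j - φ) = 0 ∧
    ∑ j ∈ Finset.range (M + 2), (qq θ * Q).coeff j * Real.cos (θ * j - φ) = 0 := by
  constructor
  · rw [quad_sum θ Q M hQ (fun j => Real.sin (θ * j - φ))]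
    refine Finset.sum_eq_zero fun j _ => ?_
    have e1 : θ * ((j + 2 : ℕ) : ℝ) - φ = (θ * ((j + 1 : ℕ) : ℝ) - φ) + θ := by push_cast; ring
    have e2 : θ * (j : ℝ) - φ = (θ * ((j + 1 : ℕ) : ℝ) - φ) - θ := by push_cast; ring
    rw [e1, e2]
    generalize θ * ((j + 1 : ℕ) : ℝ) - φ = A
    rw [Real.sin_add, Real.sin_sub]
    ring
  · rw [quad_sum θ Q M hQ (fun j => Real.cos (θ * j - φ))]
    refine Finset.sum_eq_zero fun j _ => ?_
    have e1 : θ * ((j + 2 : ℕ) : ℝ) - φ = (θ * ((j + 1 : ℕ) : ℝ) - φ) + θ := by push_cast; ring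
    have e2 : θ * (j : ℝ) - φ = (θ * ((j + 1 : ℕ) : ℝ) - φ) - θ := by push_cast; ring
    rw [e1, e2]
    generalize θ * ((j + 1 : ℕ) : ℝ) - φ = A
    rw [Real.cos_add, Real.cos_sub]
    ring

/-- the coefficients of the quotient as one-sided sine sums -/
theorem quad_sum_tail (θ : ℝ) (Q : ℝ[X]) (M : ℕ) (hQ : Q.natDegree < M) (i : ℕ) :
    ∑ j ∈ Finset.Ico (i + 1) (M + 2), (qq θ * Q).coeff j * Real.sin (θ * (j - ((i + 1 : ℕ) : ℝ))) =
      Real.sin θ * Q.coeff i := by
  have h1 : ∑ j ∈ Finset.Ico (i + 1) (M + 2), (qq θ * Q).coeff j *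
      Real.sin (θ * (j - ((i + 1 : ℕ) : ℝ))) =
      ∑ j ∈ Finset.range (M + 2), (qq θ * Q).coeff j *
        (if i + 1 ≤ j then Real.sin (θ * (j - ((i + 1 : ℕ) : ℝ))) else 0) := by
    have hsub : Finset.Ico (i + 1) (M + 2) ⊆ Finset.range (M + 2) := by
      intro j hj; rw [Finset.mem_range]; exact (Finset.mem_Ico.1 hj).2
    rw [← Finset.sum_subset hsub]
    · refine Finset.sum_congr rfl fun j hj => ?_
      rw [if_pos (Finset.mem_Ico.1 hj).1]
    · intro j hj hj2
      have : ¬ (i + 1 ≤ j) := by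
        intro h
        exact hj2 (Finset.mem_Ico.2 ⟨h, Finset.mem_range.1 hj⟩)
      rw [if_neg this, mul_zero]
  rw [h1, quad_sum θ Q M hQ
    (fun j => if i + 1 ≤ j then Real.sin (θ * (j - ((i + 1 : ℕ) : ℝ))) else 0)]
  have h2 : ∀ j ∈ Finset.range M, Q.coeff j *
      ((if i + 1 ≤ j + 2 then Real.sin (θ * (((j + 2 : ℕ) : ℝ) - ((i + 1 : ℕ) : ℝ))) else 0) -
      2 * Real.cos θ *
        (if i + 1 ≤ j + 1 then Real.sin (θ * (((j + 1 : ℕ) : ℝ) - ((i + 1 : ℕ) : ℝ))) else 0) +
      (if i + 1 ≤ j then Real.sin (θ * ((j : ℝ) - ((i + 1 : ℕ) : ℝ))) else 0)) =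
      if j = i then Real.sin θ * Q.coeff i else 0 := by
    intro j _
    rcases lt_trichotomy j i with h | h | h
    · rcases Nat.lt_or_ge (j + 1) i with h' | h'
      · rw [if_neg (by omega), if_neg (by omega), if_neg (by omega), if_neg (by omega)]
        ring
      · have hi : i = j + 1 := by omega
        subst hi
        rw [if_pos (by omega), if_neg (by omega), if_neg (by omega), if_neg (by omega)]
        push_cast
        rw [show θ * ((j : ℝ) + 2 - (j + 1 + 1)) = 0 by ring, Real.sin_zero]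
        ring
    · subst h
      rw [if_pos (by omega), if_pos (by omega), if_neg (by omega), if_pos rfl]
      push_cast
      rw [show θ * ((j : ℝ) + 2 - (j + 1)) = θ by ring,
        show θ * ((j : ℝ) + 1 - (j + 1)) = 0 by ring, Real.sin_zero]
      ring
    · rw [if_pos (by omega), if_pos (by omega), if_pos (by omega), if_neg (by omega)]
      push_cast
      have e1 : θ * ((j : ℝ) + 2 - (i + 1)) = (θ * ((j : ℝ) + 1 - (i + 1))) + θ := by ring
      have e2 : θ * ((j : ℝ) - (i + 1)) = (θ * ((j : ℝ) + 1 - (i + 1))) - θ := by ring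
      rw [e1, e2, Real.sin_add, Real.sin_sub]
      ring
  rw [Finset.sum_congr rfl h2, Finset.sum_ite_eq']
  by_cases hi : i ∈ Finset.range M
  · rw [if_pos hi]
  · rw [if_neg hi, coeff_eq_zero_of_natDegree_lt (lt_of_lt_of_le hQ (by
      rw [Finset.mem_range] at hi; omega)), mul_zero]

variable {n : ℕ}

/-- the polynomial with an additional factor `(1 + η X)^K` -/
noncomputable def PE (a : Fin n → ℝ) (η : ℝ) (K : ℕ) : ℝ[X] := (∏ k, qq (a k)) * (1 + C η * X) ^ K

noncomputable def QQ (a : Fin n → ℝ) (η : ℝ) (K : ℕ) (p : Fin n) : ℝ[X] :=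
  (∏ k ∈ Finset.univ.erase p, qq (a k)) * (1 + C η * X) ^ K

theorem PE_eq (a : Fin n → ℝ) (η : ℝ) (K : ℕ) (p : Fin n) :
    PE a η K = qq (a p) * QQ a η K p := by
  unfold PE QQ
  rw [← mul_assoc, Finset.mul_prod_erase Finset.univ (fun k => qq (a k)) (Finset.mem_univ p)]

theorem natDegree_QQ (a : Fin n → ℝ) (η : ℝ) (K : ℕ) (p : Fin n) :
    (QQ a η K p).natDegree < 2 * n + K - 1 := by
  have hn : 0 < n := lt_of_le_of_lt (Nat.zero_le _) p.2
  unfold QQ
  have h1 : (∏ k ∈ Finset.univ.erase p, qq (a k)).natDegree ≤ 2 * (n - 1) := by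
    refine (natDegree_prod_le _ _).trans ((Finset.sum_le_sum fun k _ => natDegree_qq (a k)).trans ?_)
    rw [Finset.sum_const, Finset.card_erase_of_mem (Finset.mem_univ p), Finset.card_univ,
      Fintype.card_fin, smul_eq_mul]
    omega
  have h2 : ((1 + C η * X : ℝ[X]) ^ K).natDegree ≤ K := by
    refine natDegree_pow_le.trans ?_
    have : (1 + C η * X : ℝ[X]).natDegree ≤ 1 := by compute_degree
    calc K * _ ≤ K * 1 := Nat.mul_le_mul_left K this
      _ = K := mul_one K
  have h3 := natDegree_mul_le (p := ∏ k ∈ Finset.univ.erase p, qq (a k))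
    (q := (1 + C η * X : ℝ[X]) ^ K)
  omega

theorem k2_closed (a : Fin n → ℝ) (ha : ∀ k, 0 < a k ∧ a k < π) (p q : Fin n)
    (hpq : a p < a q) (h3 : a q ≤ 3 * a p) (hoth : ∀ k, k ≠ p → k ≠ q → (a p + a q) / 2 < a k)
    (η : ℝ) (hη : 0 < η) (K : ℕ) (hP : ∀ j, 0 ≤ (PE a η K).coeff j) (i : ℕ) :
    0 ≤ Real.sin (a p) * (QQ a η K p).coeff i + Real.sin (a q) * (QQ a η K q).coeff i := by
  have hn : 0 < n := lt_of_le_of_lt (Nat.zero_le _) p.2
  set N := 2 * n + K with hN
  have hNM : N + 1 = (N - 1) + 2 := by omega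
  have hdp := natDegree_QQ a η K p
  have hdq := natDegree_QQ a η K q
  rw [← hN] at hdp hdq
  rcases Nat.lt_or_ge (i + 1) N with hi | hi
  swap
  · rw [coeff_eq_zero_of_natDegree_lt (by omega : (QQ a η K p).natDegree < i),
      coeff_eq_zero_of_natDegree_lt (by omega : (QQ a η K q).natDegree < i)]
    simp
  set σ := (a p + a q) / 2 with hσ
  set d := (a q - a p) / 2 with hd
  set J := i + 1 with hJ
  set c : ℕ → ℝ := fun j => (PE a η K).coeff j with hc
  set s : ℕ → ℝ := fun j => c j * Real.sin (σ * (j - J)) with hs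
  have hb : σ + d = a q := by rw [hσ, hd]; ring
  have hb' : σ - d = a p := by rw [hσ, hd]; ring
  have hharm : ∀ (r : Fin n) (φ : ℝ),
      ∑ j ∈ Finset.range (N + 1), c j * Real.sin (a r * j - φ) = 0 ∧
      ∑ j ∈ Finset.range (N + 1), c j * Real.cos (a r * j - φ) = 0 := by
    intro r φ
    have hdr := natDegree_QQ a η K r
    rw [← hN] at hdr
    have := quad_sum_harm (a r) φ (QQ a η K r) (N - 1) hdr
    rw [← PE_eq, ← hNM] at this
    exact this
  have hcs : ∑ j ∈ Finset.range (N + 1), s j * Real.cos (d * j) = 0 := by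
    have h1 := (hharm p (σ * J)).1
    have h2 := (hharm q (σ * J)).1
    have h3 : ∑ j ∈ Finset.range (N + 1), s j * Real.cos (d * j) =
        1 / 2 * (∑ j ∈ Finset.range (N + 1), c j * Real.sin (a q * j - σ * J) +
        ∑ j ∈ Finset.range (N + 1), c j * Real.sin (a p * j - σ * J)) := by
      rw [← Finset.sum_add_distrib, Finset.mul_sum]
      refine Finset.sum_congr rfl fun j _ => ?_
      have e1 : a q * j - σ * J = σ * (j - J) + d * j := by rw [← hb]; ring
      have e2 : a p * j - σ * J = σ * (j - J) - d * j := by rw [← hb']; ring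
      rw [e1, e2, Real.sin_add, Real.sin_sub]
      simp only [hs]; ring
    rw [h3, h1, h2]; ring
  have hss : ∑ j ∈ Finset.range (N + 1), s j * Real.sin (d * j) = 0 := by
    have h1 := (hharm p (σ * J)).2
    have h2 := (hharm q (σ * J)).2
    have h3 : ∑ j ∈ Finset.range (N + 1), s j * Real.sin (d * j) =
        1 / 2 * (∑ j ∈ Finset.range (N + 1), c j * Real.cos (a p * j - σ * J) -
        ∑ j ∈ Finset.range (N + 1), c j * Real.cos (a q * j - σ * J)) := by
      rw [← Finset.sum_sub_distrib, Finset.mul_sum]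
      refine Finset.sum_congr rfl fun j _ => ?_
      have e1 : a q * j - σ * J = σ * (j - J) + d * j := by rw [← hb]; ring
      have e2 : a p * j - σ * J = σ * (j - J) - d * j := by rw [← hb']; ring
      rw [e1, e2, Real.cos_add, Real.cos_sub]
      simp only [hs]; ring
    rw [h3, h1, h2]; ring
  have hne : p ≠ q := by rintro rfl; exact lt_irrefl _ hpq
  have hw := ww_nonpos c N J σ d hP (by rw [hσ]; linarith [(ha p).1, (ha q).1])
    (by rw [hσ]; linarith [(ha p).2, (ha q).2]) (by rw [hd]; linarith) (by rw [hσ, hd]; linarith)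
    (by omega) hi s (fun j => rfl) hcs hss (by
      obtain ⟨Φ, hΦ⟩ := arg_zeros2 a p σ η K ha (by rw [hσ]; linarith)
        (by rw [hσ]; linarith [(ha p).2, (ha q).2]) (fun k hk => by
          by_cases hkq : k = q
          · rw [hkq, hσ]; linarith
          · exact hoth k hk hkq) hη (J : ℝ)
      refine ⟨Φ, fun m hm1 hm2 => ?_⟩
      obtain ⟨x, hx, hx1, hx2⟩ := hΦ m hm1 (by rw [hN] at hm2; push_cast at hm2; exact hm2)
      exact ⟨x, hx, hx1, hx2⟩)
  rw [ww_right hcs hss hi.le, neg_nonpos] at hw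
  have h4 : ∑ j ∈ Finset.Ico J (N + 1), s j * Real.cos (d * (j - J)) =
      1 / 2 * (∑ j ∈ Finset.Ico J (N + 1), c j * Real.sin (a p * (j - J)) +
        ∑ j ∈ Finset.Ico J (N + 1), c j * Real.sin (a q * (j - J))) := by
    rw [← Finset.sum_add_distrib, Finset.mul_sum]
    refine Finset.sum_congr rfl fun j _ => ?_
    have e1 : a q * (j - J) = σ * (j - J) + d * (j - J) := by rw [← hb]; ring
    have e2 : a p * (j - J) = σ * (j - J) - d * (j - J) := by rw [← hb']; ring
    rw [e1, e2, Real.sin_add, Real.sin_sub]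
    simp only [hs]; ring
  have h5 : ∀ r : Fin n, ∑ j ∈ Finset.Ico J (N + 1), c j * Real.sin (a r * (j - J)) =
      Real.sin (a r) * (QQ a η K r).coeff i := by
    intro r
    have hdr := natDegree_QQ a η K r
    rw [← hN] at hdr
    have := quad_sum_tail (a r) (QQ a η K r) (N - 1) hdr i
    rw [← PE_eq, ← hNM] at this
    exact this
  rw [h4, h5, h5] at hw
  linarith

end Pool.Agent.MP_fe2d2a_anK
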