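import Mathlib
import Pool.Agent.Lib.MP_fe2d2a_anK.Closed

/-!
Rotation of the two pairs of zeros of smallest argument: the coefficients do not decrease.
-/

set_option autoImplicit false

namespace Pool.Agent.MP_fe2d2a_anK

open Polynomial Real

/-- continuous induction: coefficients whose derivatives are nonnegative as long as all
coefficients are nonnegative -/
theorem cont_ind (N : ℕ) (f f' : ℕ → ℝ → ℝ) (T : ℝ)
    (hd : ∀ j t, HasDerivAt (f j) (f' j t) t) (hpos : ∀ j ≤ N, 0 < f j 0)
    (hzero : ∀ j, N < j → ∀ t, f j t = 0)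
    (hder : ∀ t, 0 ≤ t → t < T → (∀ j, 0 ≤ f j t) → ∀ j, 0 ≤ f' j t) :
    ∀ t, 0 ≤ t → t < T → ∀ j, 0 ≤ f j t := by
  have hcont : ∀ j, Continuous (f j) := fun j =>
    continuous_iff_continuousAt.2 fun t => (hd j t).continuousAt
  set s : Set ℝ := {t | ∀ u j, 0 ≤ u → f j u < 0 → t ≤ u} with hs
  have hclosed : IsClosed s := by
    have : s = ⋂ (u : ℝ) (j : ℕ) (_ : 0 ≤ u) (_ : f j u < 0), Set.Iic u := by
      ext t
      simp only [hs, Set.mem_iInter, Set.mem_Iic]
      exact Iff.rfl
    rw [this]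
    exact isClosed_iInter fun u => isClosed_iInter fun j => isClosed_iInter fun _ =>
      isClosed_iInter fun _ => isClosed_Iic
  -- points of `s` have nonnegative values
  have hval : ∀ t ∈ s, 0 ≤ t → ∀ j, 0 ≤ f j t := by
    intro t ht ht0 j
    by_contra h
    push Not at h
    rcases ht0.eq_or_lt with h0 | h0
    · rw [← h0] at h
      rcases le_or_gt j N with hj | hj
      · exact absurd (hpos j hj) (not_lt.2 h.le)
      · rw [hzero j hj] at h; exact lt_irrefl _ h
    · have h1 : ∀ᶠ u in nhds t, f j u < 0 := (hcont j).continuousAt.eventually_lt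
        continuousAt_const h
      have h2 : ∀ᶠ u in nhds t, 0 < u := lt_mem_nhds h0
      obtain ⟨u, hu, hu1⟩ := ((h1.and h2).filter_mono nhdsWithin_le_nhds |>.and
        (self_mem_nhdsWithin (s := Set.Iio t) (a := t))).exists
      exact absurd (ht u j hu.2.le hu.1) (not_le.2 hu1)
  have hall : ∀ t ∈ s, 0 ≤ t → ∀ u, 0 ≤ u → u ≤ t → ∀ j, 0 ≤ f j u := by
    intro t ht ht0 u hu hut j
    apply hval u _ hu
    intro u' j' hu' hneg
    exact hut.trans (ht u' j' hu' hneg)
  have hsub : ∀ T', T' < T → Set.Icc 0 T' ⊆ s := by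
    intro T' hT'
    apply (hclosed.inter isClosed_Icc).Icc_subset_of_forall_exists_gt
    · intro u j hu _; exact hu
    · rintro x ⟨hxs, hx0, hxT⟩ y hy
      have hxy : x < y := hy
      -- values at x are positive
      have hxpos : ∀ j ≤ N, 0 < f j x := by
        intro j hj
        have hmono : MonotoneOn (f j) (Set.Icc 0 x) := by
          refine monotoneOn_of_deriv_nonneg (convex_Icc 0 x) (hcont j).continuousOn
            (fun u _ => (hd j u).differentiableAt.differentiableWithinAt) (fun u hu => ?_)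
          rw [interior_Icc] at hu
          rw [(hd j u).deriv]
          exact hder u hu.1.le (by linarith [hu.2]) (hall x hxs hx0 u hu.1.le hu.2.le) j
        exact (hpos j hj).trans_le (hmono (Set.left_mem_Icc.2 hx0) (Set.right_mem_Icc.2 hx0) hx0)
      have hev : ∀ᶠ u in nhds x, ∀ j ∈ Finset.range (N + 1), 0 < f j u := by
        rw [Filter.eventually_all_finset]
        intro j hj
        exact continuousAt_const.eventually_lt (hcont j).continuousAt
          (hxpos j (by have := Finset.mem_range.1 hj; omega))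
      obtain ⟨ε, hε, hball⟩ := Metric.eventually_nhds_iff.mp hev
      refine ⟨min y (x + ε / 2), ?_, ?_⟩
      · intro u j hu hneg
        by_contra hcon
        push Not at hcon
        rcases le_or_gt u x with h | h
        · exact absurd (hall x hxs hx0 u hu h j) (not_le.2 hneg)
        · rcases le_or_gt j N with hj | hj
          · have h3 := hball (y := u) (by
              rw [Real.dist_eq, abs_of_pos (by linarith)]
              have : u < x + ε / 2 := lt_of_lt_of_le hcon (min_le_right _ _)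
              linarith) j (Finset.mem_range.2 (by omega))
            linarith
          · rw [hzero j hj] at hneg; exact lt_irrefl _ hneg
      · exact ⟨lt_min hxy (by linarith), min_le_left _ _⟩
  intro t ht0 htT
  exact hval t (hsub t htT ⟨ht0, le_rfl⟩) ht0

variable {n : ℕ}

/-- the angles after rotating the two pairs `p`, `q` by `t` -/
noncomputable def AA (a : Fin n → ℝ) (p q : Fin n) (t : ℝ) (k : Fin n) : ℝ :=
  a k + (if k = p ∨ k = q then t else 0)

/-- the factor which does not move -/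
noncomputable def RR (a : Fin n → ℝ) (η : ℝ) (K : ℕ) (p q : Fin n) : ℝ[X] :=
  (∏ k ∈ (Finset.univ.erase p).erase q, qq (a k)) * (1 + C η * X) ^ K

theorem QQ_AA_left (a : Fin n → ℝ) (η : ℝ) (K : ℕ) (p q : Fin n) (hpq : p ≠ q) (t : ℝ) :
    QQ (AA a p q t) η K p = qq (a q + t) * RR a η K p q := by
  unfold QQ RR
  rw [← Finset.mul_prod_erase (Finset.univ.erase p) (fun k => qq (AA a p q t k))
    (Finset.mem_erase.2 ⟨hpq.symm, Finset.mem_univ q⟩), mul_assoc]
  congr 1
  · simp [AA]
  · congr 1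
    refine Finset.prod_congr rfl fun k hk => ?_
    have h1 := Finset.mem_erase.1 hk
    have h2 := Finset.mem_erase.1 h1.2
    simp [AA, h1.1, h2.1]

theorem QQ_AA_right (a : Fin n → ℝ) (η : ℝ) (K : ℕ) (p q : Fin n) (hpq : p ≠ q) (t : ℝ) :
    QQ (AA a p q t) η K q = qq (a p + t) * RR a η K p q := by
  unfold QQ RR
  rw [Finset.erase_right_comm, ← Finset.mul_prod_erase (Finset.univ.erase q)
    (fun k => qq (AA a p q t k)) (Finset.mem_erase.2 ⟨hpq, Finset.mem_univ p⟩), mul_assoc]
  congr 1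
  · simp [AA]
  · congr 1
    refine Finset.prod_congr rfl fun k hk => ?_
    have h1 := Finset.mem_erase.1 hk
    have h2 := Finset.mem_erase.1 h1.2
    simp [AA, h1.1, h2.1]

theorem hasDerivAt_coeff (a : Fin n → ℝ) (η : ℝ) (K : ℕ) (p q : Fin n) (hpq : p ≠ q) (j : ℕ)
    (t : ℝ) : HasDerivAt (fun t => (PE (AA a p q t) η K).coeff j)
      (2 * (Real.sin (a p + t) * (X * QQ (AA a p q t) η K p).coeff j +
        Real.sin (a q + t) * (X * QQ (AA a p q t) η K q).coeff j)) t := by
  set R := RR a η K p q with hR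
  set b0 := ((X ^ 2 + 1) ^ 2 * R).coeff j with hb0
  set b1 := (X * (X ^ 2 + 1) * R).coeff j with hb1
  set b2 := (X ^ 2 * R).coeff j with hb2
  have e : ∀ u, (PE (AA a p q u) η K).coeff j = b0 - 2 * Real.cos (a p + u) * b1 -
      2 * Real.cos (a q + u) * b1 + 4 * Real.cos (a p + u) * Real.cos (a q + u) * b2 := by
    intro u
    have h1 : AA a p q u p = a p + u := by simp [AA]
    rw [PE_eq _ η K p, QQ_AA_left a η K p q hpq u, h1, ← hR]
    have h2 : qq (a p + u) * (qq (a q + u) * R) = (X ^ 2 + 1) ^ 2 * R -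
        C (2 * Real.cos (a p + u)) * (X * (X ^ 2 + 1) * R) -
        C (2 * Real.cos (a q + u)) * (X * (X ^ 2 + 1) * R) +
        C (4 * Real.cos (a p + u) * Real.cos (a q + u)) * (X ^ 2 * R) := by
      unfold qq
      simp only [map_mul, map_ofNat]
      ring
    rw [h2, coeff_add, coeff_sub, coeff_sub, coeff_C_mul, coeff_C_mul, coeff_C_mul]
  have e1 : (X * QQ (AA a p q t) η K p).coeff j = b1 - 2 * Real.cos (a q + t) * b2 := by
    rw [QQ_AA_left a η K p q hpq t, ← hR]
    have h2 : X * (qq (a q + t) * R) = X * (X ^ 2 + 1) * R -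
        C (2 * Real.cos (a q + t)) * (X ^ 2 * R) := by
      unfold qq; ring
    rw [h2, coeff_sub, coeff_C_mul]
  have e2 : (X * QQ (AA a p q t) η K q).coeff j = b1 - 2 * Real.cos (a p + t) * b2 := by
    rw [QQ_AA_right a η K p q hpq t, ← hR]
    have h2 : X * (qq (a p + t) * R) = X * (X ^ 2 + 1) * R -
        C (2 * Real.cos (a p + t)) * (X ^ 2 * R) := by
      unfold qq; ring
    rw [h2, coeff_sub, coeff_C_mul]
  have hcos : ∀ x : ℝ, HasDerivAt (fun u => Real.cos (x + u)) (-Real.sin (x + t)) t := by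
    intro x
    have h1 : HasDerivAt (fun u : ℝ => x + u) 1 t := by
      simpa using (hasDerivAt_id t).const_add x
    simpa using h1.cos
  have h3 : HasDerivAt (fun u => b0 - 2 * Real.cos (a p + u) * b1 -
      2 * Real.cos (a q + u) * b1 + 4 * Real.cos (a p + u) * Real.cos (a q + u) * b2)
      (2 * (Real.sin (a p + t) * (b1 - 2 * Real.cos (a q + t) * b2) +
        Real.sin (a q + t) * (b1 - 2 * Real.cos (a p + t) * b2))) t := by
    have hp := hcos (a p)
    have hq := hcos (a q)
    have h4 := (((hp.const_mul 2).mul_const b1).const_sub b0).sub ((hq.const_mul 2).mul_const b1)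
    have h5 := ((hp.const_mul 4).mul hq).mul_const b2
    have h6 := h4.add h5
    refine h6.congr_deriv ?_
    ring
  rw [e1, e2]
  exact h3.congr_of_eventuallyEq (Filter.Eventually.of_forall e)

theorem natDegree_PE (a : Fin n → ℝ) (η : ℝ) (K : ℕ) : (PE a η K).natDegree ≤ 2 * n + K := by
  unfold PE
  have h1 : (∏ k, qq (a k)).natDegree ≤ 2 * n := by
    refine (natDegree_prod_le _ _).trans ((Finset.sum_le_sum fun k _ => natDegree_qq (a k)).trans ?_)
    rw [Finset.sum_const, Finset.card_univ, Fintype.card_fin, smul_eq_mul]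
    omega
  have h2 : ((1 + C η * X : ℝ[X]) ^ K).natDegree ≤ K := by
    refine natDegree_pow_le.trans ?_
    have : (1 + C η * X : ℝ[X]).natDegree ≤ 1 := by compute_degree
    calc K * _ ≤ K * 1 := Nat.mul_le_mul_left K this
      _ = K := mul_one K
  have h3 := natDegree_mul_le (p := ∏ k, qq (a k)) (q := (1 + C η * X : ℝ[X]) ^ K)
  omega

theorem coeff_one_add (η : ℝ) (K l : ℕ) :
    ((1 + C η * X : ℝ[X]) ^ K).coeff l = (K.choose l : ℝ) * η ^ l := by
  have h : (1 + C η * X : ℝ[X]) ^ K = ((1 + X : ℝ[X]) ^ K).comp (C η * X) := by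
    simp
  rw [h, comp_C_mul_X_coeff, coeff_one_add_X_pow]

theorem coeff_PE (a : Fin n → ℝ) (η : ℝ) (K j : ℕ) : (PE a η K).coeff j =
    ∑ x ∈ Finset.HasAntidiagonal.antidiagonal j, (∏ k, qq (a k)).coeff x.1 * ((K.choose x.2 : ℝ) * η ^ x.2) := by
  unfold PE
  rw [coeff_mul]
  exact Finset.sum_congr rfl fun x _ => by rw [coeff_one_add]

theorem monic_qq (θ : ℝ) : (qq θ).Monic := by
  unfold qq
  monicity!

theorem natDegree_qq_eq (θ : ℝ) : (qq θ).natDegree = 2 := by
  unfold qq
  compute_degree!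

theorem top_coeff (a : Fin n → ℝ) : (∏ k, qq (a k)).coeff (2 * n) = 1 := by
  have h1 : (∏ k, qq (a k)).Monic := monic_prod_of_monic _ _ fun k _ => monic_qq (a k)
  have h2 : (∏ k, qq (a k)).natDegree = 2 * n := by
    rw [natDegree_prod_of_monic _ _ fun k _ => monic_qq (a k)]
    simp [natDegree_qq_eq, mul_comm]
  have := h1.coeff_natDegree
  rwa [h2] at this

theorem bot_coeff (a : Fin n → ℝ) : (∏ k, qq (a k)).coeff 0 = 1 := by
  rw [coeff_zero_eq_eval_zero, eval_prod]
  refine Finset.prod_eq_one fun k _ => ?_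
  simp [qq]

theorem pos_PE (a : Fin n → ℝ) (h : ∀ j, 0 ≤ (∏ k, qq (a k)).coeff j) (η : ℝ) (hη : 0 < η)
    (K : ℕ) (hK : 2 * n ≤ K) (j : ℕ) (hj : j ≤ 2 * n + K) : 0 < (PE a η K).coeff j := by
  rw [coeff_PE]
  have hnn : ∀ x ∈ Finset.HasAntidiagonal.antidiagonal j,
      0 ≤ (∏ k, qq (a k)).coeff x.1 * ((K.choose x.2 : ℝ) * η ^ x.2) := fun x _ =>
    mul_nonneg (h _) (by positivity)
  rcases le_or_gt j K with hjK | hjK
  · refine Finset.sum_pos' hnn ⟨(0, j), by simp, ?_⟩
    rw [bot_coeff]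
    have : 0 < K.choose j := Nat.choose_pos hjK
    positivity
  · refine Finset.sum_pos' hnn ⟨(2 * n, j - 2 * n), by
      rw [Finset.HasAntidiagonal.mem_antidiagonal]; simp only; omega, ?_⟩
    simp only
    rw [top_coeff]
    have : 0 < K.choose (j - 2 * n) := Nat.choose_pos (by omega)
    positivity

theorem rotate_PE (a : Fin n → ℝ) (ha : ∀ k, 0 < a k ∧ a k < π)
    (hP : ∀ j, 0 ≤ (∏ k, qq (a k)).coeff j) (p q : Fin n)
    (hpq : a p < a q) (h3 : a q ≤ 3 * a p) (T : ℝ) (hT : a q + T ≤ π)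
    (hoth : ∀ k, k ≠ p → k ≠ q → (a p + a q) / 2 + T ≤ a k) (η : ℝ) (hη : 0 < η) (j : ℕ) :
    MonotoneOn (fun t => (PE (AA a p q t) η (2 * n)).coeff j) (Set.Icc 0 T) := by
  have hne : p ≠ q := by rintro rfl; exact lt_irrefl _ hpq
  set K := 2 * n with hK
  set f : ℕ → ℝ → ℝ := fun j t => (PE (AA a p q t) η K).coeff j with hf
  set f' : ℕ → ℝ → ℝ := fun j t => 2 * (Real.sin (a p + t) * (X * QQ (AA a p q t) η K p).coeff j +
        Real.sin (a q + t) * (X * QQ (AA a p q t) η K q).coeff j) with hf'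
  have hd : ∀ j t, HasDerivAt (f j) (f' j t) t := fun j t => hasDerivAt_coeff a η K p q hne j t
  have hAp : ∀ t, AA a p q t p = a p + t := fun t => by simp [AA]
  have hAq : ∀ t, AA a p q t q = a q + t := fun t => by simp [AA]
  have hAk : ∀ t k, k ≠ p → k ≠ q → AA a p q t k = a k := fun t k h1 h2 => by simp [AA, h1, h2]
  have hA0 : AA a p q 0 = a := by funext k; simp [AA]
  have hder : ∀ t, 0 ≤ t → t < T → (∀ j, 0 ≤ f j t) → ∀ j, 0 ≤ f' j t := by
    intro t ht0 htT hnn j
    cases j with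
    | zero => simp [hf']
    | succ i =>
      have h1 := k2_closed (AA a p q t) (fun k => by
        by_cases hkp : k = p
        · rw [hkp, hAp]; exact ⟨by linarith [(ha p).1], by linarith⟩
        · by_cases hkq : k = q
          · rw [hkq, hAq]; exact ⟨by linarith [(ha q).1], by linarith⟩
          · rw [hAk t k hkp hkq]; exact ha k) p q (by rw [hAp, hAq]; linarith)
        (by rw [hAp, hAq]; linarith) (fun k h1 h2 => by
          rw [hAp, hAq, hAk t k h1 h2]; have := hoth k h1 h2; linarith) η hη K hnn i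
      rw [hAp, hAq] at h1
      simp only [hf', coeff_X_mul]
      linarith
  have hnn := cont_ind (2 * n + K) f f' T hd (fun j hj => by
      simp only [hf, hA0]
      exact pos_PE a hP η hη K le_rfl j hj)
    (fun j hj t => coeff_eq_zero_of_natDegree_lt (lt_of_le_of_lt (natDegree_PE _ η K) hj)) hder
  refine monotoneOn_of_deriv_nonneg (convex_Icc 0 T)
    (fun t _ => (hd j t).continuousAt.continuousWithinAt)
    (fun t _ => (hd j t).differentiableAt.differentiableWithinAt) (fun t ht => ?_)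
  rw [interior_Icc] at ht
  rw [(hd j t).deriv]
  exact hder t ht.1.le ht.2 (fun j => hnn t ht.1.le ht.2 j) j

theorem rotate (a : Fin n → ℝ) (ha : ∀ k, 0 < a k ∧ a k < π)
    (hP : ∀ j, 0 ≤ (∏ k, qq (a k)).coeff j) (p q : Fin n)
    (hpq : a p < a q) (h3 : a q ≤ 3 * a p) (T : ℝ) (hT : a q + T ≤ π)
    (hoth : ∀ k, k ≠ p → k ≠ q → (a p + a q) / 2 + T ≤ a k) (j : ℕ) :
    MonotoneOn (fun t => (∏ k, qq (AA a p q t k)).coeff j) (Set.Icc 0 T) := by
  intro s hs t ht hst
  have hlim : ∀ u, Filter.Tendsto (fun η => (PE (AA a p q u) η (2 * n)).coeff j)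
      (nhdsWithin 0 (Set.Ioi 0)) (nhds ((∏ k, qq (AA a p q u k)).coeff j)) := by
    intro u
    have hc : Continuous fun η => (PE (AA a p q u) η (2 * n)).coeff j := by
      simp only [coeff_PE]
      fun_prop
    have h0 : (PE (AA a p q u) 0 (2 * n)).coeff j = (∏ k, qq (AA a p q u k)).coeff j := by
      unfold PE; simp
    have := hc.tendsto 0
    rw [h0] at this
    exact this.mono_left nhdsWithin_le_nhds
  refine le_of_tendsto_of_tendsto (hlim s) (hlim t) ?_
  filter_upwards [self_mem_nhdsWithin] with η hη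
  exact rotate_PE a ha hP p q hpq h3 T hT hoth η hη j hs ht hst

end Pool.Agent.MP_fe2d2a_anK
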